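import Mathlib
import Pool.Agent.Helper2.NewtonCover
import Pool.Agent.Helper2.NewtonSmooth
import Pool.Agent.Helper2.NewtonSmoothD

/-!
# Newton covering numbers of right pyramids over cubes
-/

set_option autoImplicit false

namespace Pool.Agent.X163.Pyramid

open Set Metric
open Pool.Agent.Helper2.NewtonCover (Covers E IsBody newton covers_newton)

/-- The unit cube `[0,1]^k` in `ℝ^k`. -/
def cube (k : ℕ) : Set (E k) := {x | ∀ i, 0 ≤ x i ∧ x i ≤ 1}

/-- The cube `[0,1]^m × {0}` in `ℝ^(m+1)`. -/
def base (m : ℕ) : Set (E (m + 1)) :=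
  {x | (∀ i : Fin m, 0 ≤ x i.castSucc ∧ x i.castSucc ≤ 1) ∧ x (Fin.last m) = 0}

/-- The point `(1/2, …, 1/2, h)` of `ℝ^(m+1)`. -/
noncomputable def apex (m : ℕ) (h : ℝ) : E (m + 1) :=
  WithLp.toLp 2 fun i => if i = Fin.last m then h else 1 / 2

/-- The right pyramid of height `h` over the cube `[0,1]^m × {0}` in `ℝ^(m+1)`. -/
noncomputable def pyramid (m : ℕ) (h : ℝ) : Set (E (m + 1)) :=
  convexHull ℝ (base m ∪ {apex m h})

lemma apex_last (m : ℕ) (h : ℝ) : apex m h (Fin.last m) = h := by
  simp [apex]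

lemma apex_castSucc (m : ℕ) (h : ℝ) (i : Fin m) : apex m h i.castSucc = 1 / 2 := by
  have : i.castSucc ≠ Fin.last m := (Fin.castSucc_lt_last i).ne
  simp [apex, this]

lemma mem_pyramid {m : ℕ} {h : ℝ} (hh : 0 < h) (x : E (m + 1)) :
    x ∈ pyramid m h ↔ 0 ≤ x (Fin.last m) ∧ x (Fin.last m) ≤ h ∧
      ∀ i : Fin m, 2 * h * |x i.castSucc - 1 / 2| ≤ h - x (Fin.last m) := by
  constructor
  · intro hx
    have hconv : Convex ℝ {x : E (m + 1) | 0 ≤ x (Fin.last m) ∧ x (Fin.last m) ≤ h ∧
        ∀ i : Fin m, 2 * h * |x i.castSucc - 1 / 2| ≤ h - x (Fin.last m)} := by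
      intro x hx y hy a b ha hb hab
      obtain ⟨hx0, hx1, hx2⟩ := hx
      obtain ⟨hy0, hy1, hy2⟩ := hy
      refine ⟨?_, ?_, fun i => ?_⟩
      · simp only [PiLp.add_apply, PiLp.smul_apply, smul_eq_mul]
        positivity
      · simp only [PiLp.add_apply, PiLp.smul_apply, smul_eq_mul]
        nlinarith
      · simp only [PiLp.add_apply, PiLp.smul_apply, smul_eq_mul]
        have h1 : a * x i.castSucc + b * y i.castSucc - 1 / 2 =
            a * (x i.castSucc - 1 / 2) + b * (y i.castSucc - 1 / 2) := by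
          linear_combination (1 / 2 : ℝ) * hab
        have h2 : |a * x i.castSucc + b * y i.castSucc - 1 / 2| ≤
            a * |x i.castSucc - 1 / 2| + b * |y i.castSucc - 1 / 2| := by
          rw [h1]
          refine (abs_add_le _ _).trans ?_
          rw [abs_mul, abs_mul, abs_of_nonneg ha, abs_of_nonneg hb]
        have h3 := hx2 i
        have h4 := hy2 i
        have h5 : 2 * h * |a * x i.castSucc + b * y i.castSucc - 1 / 2| ≤
            2 * h * (a * |x i.castSucc - 1 / 2| + b * |y i.castSucc - 1 / 2|) :=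
          mul_le_mul_of_nonneg_left h2 (by positivity)
        have h6 := mul_le_mul_of_nonneg_left h3 ha
        have h7 := mul_le_mul_of_nonneg_left h4 hb
        have h8 : h = a * h + b * h := by rw [← add_mul, hab, one_mul]
        nlinarith
    have hsub : base m ∪ {apex m h} ⊆ {x : E (m + 1) | 0 ≤ x (Fin.last m) ∧
        x (Fin.last m) ≤ h ∧
        ∀ i : Fin m, 2 * h * |x i.castSucc - 1 / 2| ≤ h - x (Fin.last m)} := by
      rintro y (hy | hy)
      · obtain ⟨hy1, hy2⟩ := hy
        refine ⟨hy2.ge, by rw [hy2]; exact hh.le, fun i => ?_⟩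
        rw [hy2, sub_zero]
        have h1 : |y i.castSucc - 1 / 2| ≤ 1 / 2 := by
          rw [abs_le]
          constructor <;> linarith [(hy1 i).1, (hy1 i).2]
        nlinarith
      · rw [mem_singleton_iff] at hy
        subst hy
        refine ⟨by rw [apex_last]; exact hh.le, by rw [apex_last], fun i => ?_⟩
        rw [apex_last, apex_castSucc]
        simp
    exact convexHull_min hsub hconv hx
  · rintro ⟨h0, h1, h2⟩
    rcases eq_or_lt_of_le h1 with h3 | h3
    · have h4 : x = apex m h := by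
        ext i
        refine Fin.lastCases ?_ (fun j => ?_) i
        · rw [apex_last, h3]
        · rw [apex_castSucc]
          have h5 := h2 j
          rw [h3, sub_self] at h5
          have h6 : |x j.castSucc - 1 / 2| = 0 := by
            have := abs_nonneg (x j.castSucc - 1 / 2)
            nlinarith
          have h7 := abs_eq_zero.1 h6
          linarith
      rw [h4]
      exact subset_convexHull ℝ _ (Or.inr rfl)
    · set t : ℝ := x (Fin.last m) / h with ht
      have ht0 : 0 ≤ t := by positivity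
      have ht1 : t < 1 := by rw [ht, div_lt_one hh]; exact h3
      have hth : t * h = x (Fin.last m) := by rw [ht]; field_simp
      set b : E (m + 1) := WithLp.toLp 2 fun i =>
        if i = Fin.last m then 0 else 1 / 2 + (x i - 1 / 2) / (1 - t) with hb
      have hb1 : b (Fin.last m) = 0 := by simp [hb]
      have hb2 : ∀ i : Fin m, b i.castSucc = 1 / 2 + (x i.castSucc - 1 / 2) / (1 - t) := by
        intro i
        have : i.castSucc ≠ Fin.last m := (Fin.castSucc_lt_last i).ne
        simp [hb, this]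
      have h1t : 0 < 1 - t := by linarith
      have hbb : b ∈ base m := by
        refine ⟨fun i => ?_, hb1⟩
        rw [hb2]
        have h5 : |x i.castSucc - 1 / 2| ≤ (1 - t) / 2 := by
          have h6 := h2 i
          rw [← hth] at h6
          have h7 : 2 * h * |x i.castSucc - 1 / 2| ≤ 2 * h * ((1 - t) / 2) := by
            calc _ ≤ _ := h6
              _ = _ := by ring
          exact le_of_mul_le_mul_left h7 (by positivity)
        have h8 := abs_le.1 h5
        have h9 : -(1 / 2) ≤ (x i.castSucc - 1 / 2) / (1 - t) := by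
          rw [le_div_iff₀ h1t]; linarith [h8.1]
        have h10 : (x i.castSucc - 1 / 2) / (1 - t) ≤ 1 / 2 := by
          rw [div_le_iff₀ h1t]; linarith [h8.2]
        constructor <;> linarith
      have hx : x = (1 - t) • b + t • apex m h := by
        ext i
        refine Fin.lastCases ?_ (fun j => ?_) i
        · simp only [PiLp.add_apply, PiLp.smul_apply, smul_eq_mul]
          rw [hb1, apex_last, hth]; ring
        · simp only [PiLp.add_apply, PiLp.smul_apply, smul_eq_mul]
          rw [hb2, apex_castSucc]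
          field_simp
          ring
      rw [hx]
      have hb3 : b ∈ pyramid m h := subset_convexHull ℝ _ (Set.mem_union_left _ hbb)
      have ha3 : apex m h ∈ pyramid m h :=
        subset_convexHull ℝ _ (Set.mem_union_right _ (Set.mem_singleton _))
      have hcv : Convex ℝ (pyramid m h) := convex_convexHull ℝ _
      exact hcv hb3 ha3 h1t.le ht0 (by ring)

lemma strict_subset {m : ℕ} {h : ℝ} (hh : 0 < h) :
    {x : E (m + 1) | 0 < x (Fin.last m) ∧ x (Fin.last m) < h ∧
      ∀ i : Fin m, 2 * h * |x i.castSucc - 1 / 2| < h - x (Fin.last m)} ⊆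
    interior (pyramid m h) := by
  apply interior_maximal
  · rintro x ⟨h0, h1, h2⟩
    exact (mem_pyramid hh x).2 ⟨h0.le, h1.le, fun i => (h2 i).le⟩
  · have h1 : {x : E (m + 1) | 0 < x (Fin.last m) ∧ x (Fin.last m) < h ∧
      ∀ i : Fin m, 2 * h * |x i.castSucc - 1 / 2| < h - x (Fin.last m)} =
      {x : E (m + 1) | 0 < x (Fin.last m)} ∩ ({x : E (m + 1) | x (Fin.last m) < h} ∩
        ⋂ i : Fin m, {x : E (m + 1) | 2 * h * |x i.castSucc - 1 / 2| < h - x (Fin.last m)}) := by
      ext x
      simp
    rw [h1]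
    refine (isOpen_lt (by fun_prop) (by fun_prop)).inter
      ((isOpen_lt (by fun_prop) (by fun_prop)).inter ?_)
    exact isOpen_iInter_of_finite fun i => isOpen_lt (by fun_prop) (by fun_prop)

lemma isCompact_pyramid {m : ℕ} {h : ℝ} (hh : 0 < h) : IsCompact (pyramid m h) := by
  rw [isCompact_iff_isClosed_bounded]
  constructor
  · have h1 : pyramid m h = {x | 0 ≤ x (Fin.last m)} ∩ ({x | x (Fin.last m) ≤ h} ∩
        ⋂ i : Fin m, {x | 2 * h * |x i.castSucc - 1 / 2| ≤ h - x (Fin.last m)}) := by
      ext x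
      rw [mem_pyramid hh]
      simp
    rw [h1]
    refine (isClosed_le (by fun_prop) (by fun_prop)).inter
      ((isClosed_le (by fun_prop) (by fun_prop)).inter ?_)
    exact isClosed_iInter fun i => isClosed_le (by fun_prop) (by fun_prop)
  · unfold pyramid
    rw [isBounded_convexHull]
    refine Bornology.IsBounded.union ?_ Bornology.isBounded_singleton
    refine (isBounded_iff_forall_norm_le).2 ⟨Real.sqrt (m + 1), fun x hx => ?_⟩
    rw [EuclideanSpace.norm_eq]
    apply Real.sqrt_le_sqrt
    have h2 : ∀ i : Fin (m + 1), ‖x i‖ ^ 2 ≤ 1 := by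
      intro i
      refine Fin.lastCases ?_ (fun j => ?_) i
      · rw [hx.2]; simp
      · have h3 := hx.1 j
        rw [Real.norm_eq_abs, sq_abs]
        nlinarith [h3.1, h3.2]
    calc ∑ i, ‖x i‖ ^ 2 ≤ ∑ _i : Fin (m + 1), (1 : ℝ) := Finset.sum_le_sum fun i _ => h2 i
      _ = m + 1 := by simp

lemma interior_pyramid {m : ℕ} {h : ℝ} (hh : 0 < h) : (interior (pyramid m h)).Nonempty := by
  refine ⟨apex m (h / 2), strict_subset hh ⟨?_, ?_, fun i => ?_⟩⟩
  · rw [apex_last]; positivity
  · rw [apex_last]; linarith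
  · rw [apex_last, apex_castSucc]
    simp; linarith

lemma isBody_pyramid {m : ℕ} {h : ℝ} (hh : 0 < h) : IsBody (pyramid m h) :=
  ⟨convex_convexHull ℝ _, isCompact_pyramid hh, interior_pyramid hh⟩

/-- Covering a neighbourhood of `C` by a small translate and one further copy. -/
theorem covers_two {V : Type*} [NormedAddCommGroup V] [NormedSpace ℝ V] {C : Set V}
    (hc : Convex ℝ C) (hk : IsCompact C) {v : V} (g : V ≃ᵢ V)
    (h : ∀ p ∈ C, (∃ t : ℝ, 0 < t ∧ p + t • v ∈ interior C) ∨ p ∈ interior (g '' C)) :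
    Covers C 2 := by
  let s : ℕ → ℝ := fun n => 1 / ((n : ℝ) + 1)
  have hs0 : ∀ n, 0 < s n := fun n => by positivity
  let W : ℕ → Set V := fun n => (fun p => p + s n • v) ⁻¹' interior C
  have hWo : ∀ n, IsOpen (W n) := fun n => isOpen_interior.preimage (by fun_prop)
  have hWm : ∀ p ∈ C, ∀ t : ℝ, p + t • v ∈ interior C → ∀ n, 0 < t → s n ≤ t → p ∈ W n := by
    intro p hp t ht n ht0 hle
    have := hc.add_smul_mem_interior hp ht (t := s n / t)
      ⟨by have := hs0 n; positivity, by rw [div_le_one ht0]; exact hle⟩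
    have h2 : (s n / t) • (t • v) = s n • v := by
      rw [smul_smul, div_mul_cancel₀ _ ht0.ne']
    rw [h2] at this
    exact this
  let U : ℕ → Set V := fun n => W n ∪ interior (g '' C)
  have hUo : ∀ n, IsOpen (U n) := fun n => (hWo n).union isOpen_interior
  have hsmall : ∀ t : ℝ, 0 < t → ∃ n, s n ≤ t := by
    intro t ht
    obtain ⟨n, hn⟩ := exists_nat_one_div_lt ht
    exact ⟨n, hn.le⟩
  have hcov : C ⊆ ⋃ n, U n := by
    intro p hp
    rcases h p hp with ⟨t, ht, hin⟩ | hin
    · obtain ⟨n, hn⟩ := hsmall t ht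
      exact mem_iUnion.2 ⟨n, Or.inl (hWm p hp t hin n ht hn)⟩
    · exact mem_iUnion.2 ⟨0, Or.inr hin⟩
  obtain ⟨T, hT⟩ := hk.elim_finite_subcover U hUo hcov
  set N := T.sup id with hN
  have hsmono : ∀ m n, m ≤ n → s n ≤ s m := by
    intro m n hmn
    exact Nat.one_div_le_one_div hmn
  have hCU : C ⊆ U N := by
    intro p hp
    obtain ⟨n, hn⟩ := mem_iUnion.1 (hT hp)
    obtain ⟨hnT, hpn⟩ := mem_iUnion.1 hn
    have hle : n ≤ N := Finset.le_sup (f := id) hnT
    rcases hpn with h1 | h1
    · exact Or.inl (hWm p hp (s n) h1 N (hs0 n) (hsmono n N hle))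
    · exact Or.inr h1
  refine ⟨![IsometryEquiv.addRight (-(s N • v)), g], U N, hUo N, hCU, ?_⟩
  rintro p (h1 | h1)
  · refine mem_iUnion.2 ⟨0, ?_⟩
    exact ⟨p + s N • v, interior_subset h1, by simp⟩
  · refine mem_iUnion.2 ⟨1, ?_⟩
    exact interior_subset h1

/-- Rotations that make the cube `[-1/2,1/2]^m × {0}` fit into the interior of a prism. -/
theorem exists_rot {m : ℕ} (s : Finset (Fin m)) : ∀ η : ℝ, 0 < η →
    ∃ (R : E (m + 1) ≃ᵢ E (m + 1)) (θ : ℝ), 0 ≤ θ ∧ θ < 1 / 2 ∧
      ∀ x : E (m + 1), x (Fin.last m) = 0 → (∀ i : Fin m, |x i.castSucc| ≤ 1 / 2) →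
        (∀ i ∈ s, |R x i.castSucc| ≤ θ) ∧ (∀ i ∉ s, R x i.castSucc = x i.castSucc) ∧
          |R x (Fin.last m)| ≤ η := by
  classical
  induction s using Finset.induction_on with
  | empty =>
    intro η hη
    refine ⟨IsometryEquiv.refl _, 0, le_rfl, by norm_num, fun x hx0 hx => ?_⟩
    refine ⟨fun i hi => absurd hi (Finset.notMem_empty i), fun i _ => rfl, ?_⟩
    show |x (Fin.last m)| ≤ η
    rw [hx0]
    simpa using hη.le
  | insert j s hj ih =>
    intro η hη
    set φ : ℝ := min (η / 2) 1 with hφ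
    have hφ0 : 0 < φ := by rw [hφ]; positivity
    have hφ1 : φ ≤ 1 := min_le_right _ _
    have hφη : φ ≤ η / 2 := min_le_left _ _
    have hcos1 : Real.cos φ < 1 := by
      rw [← Real.cos_zero]
      apply Real.cos_lt_cos_of_nonneg_of_le_pi le_rfl _ hφ0
      linarith [Real.pi_gt_three]
    have hcos0 : 0 ≤ Real.cos φ := by
      apply Real.cos_nonneg_of_mem_Icc
      constructor <;> linarith [Real.pi_gt_three]
    have hsin0 : 0 ≤ Real.sin φ := by
      apply Real.sin_nonneg_of_nonneg_of_le_pi hφ0.le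
      linarith [Real.pi_gt_three]
    have hsin : Real.sin φ ≤ φ := Real.sin_le hφ0.le
    set η' : ℝ := min (η / 2) ((1 - Real.cos φ) / 4) with hη'
    have hη'0 : 0 < η' := by
      rw [hη']
      apply lt_min (by positivity)
      linarith
    have hη'1 : η' ≤ η / 2 := min_le_left _ _
    have hη'2 : η' ≤ (1 - Real.cos φ) / 4 := min_le_right _ _
    obtain ⟨R, θ, hθ0, hθ1, hR⟩ := ih η' hη'0
    set u : E (m + 1) := EuclideanSpace.single j.castSucc 1 with hu
    set e : E (m + 1) := EuclideanSpace.single (Fin.last m) 1 with he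
    have hjl : j.castSucc ≠ Fin.last m := (Fin.castSucc_lt_last j).ne
    have hu1 : ‖u‖ = 1 := by rw [hu]; simp
    have he1 : ‖e‖ = 1 := by rw [he]; simp
    have hiu : ∀ x : E (m + 1), inner ℝ u x = x j.castSucc := by
      intro x
      rw [hu, EuclideanSpace.inner_single_left]; simp
    have hie : ∀ x : E (m + 1), inner ℝ e x = x (Fin.last m) := by
      intro x
      rw [he, EuclideanSpace.inner_single_left]; simp
    have hue : inner ℝ u e = 0 := by
      rw [hiu, he]
      simp [hjl]
    obtain ⟨Q, hQ⟩ := Pool.Agent.Helper2.NewtonSmoothD.rotation hu1 he1 hue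
    have hQj : ∀ x : E (m + 1), Q φ x j.castSucc =
        Real.cos φ * x j.castSucc + Real.sin φ * x (Fin.last m) := by
      intro x
      rw [hQ, hiu, hie]
      simp only [PiLp.add_apply, PiLp.sub_apply, PiLp.smul_apply, smul_eq_mul, hu, he,
        PiLp.single_apply, if_true, if_neg hjl]
      ring
    have hQl : ∀ x : E (m + 1), Q φ x (Fin.last m) =
        Real.cos φ * x (Fin.last m) - Real.sin φ * x j.castSucc := by
      intro x
      rw [hQ, hiu, hie]
      simp only [PiLp.add_apply, PiLp.sub_apply, PiLp.smul_apply, smul_eq_mul, hu, he,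
        PiLp.single_apply, if_true, if_neg hjl.symm]
      ring
    have hQi : ∀ (x : E (m + 1)) (i : Fin m), i ≠ j → Q φ x i.castSucc = x i.castSucc := by
      intro x i hij
      have h1 : i.castSucc ≠ j.castSucc := fun h => hij (Fin.castSucc_injective m h)
      have h2 : i.castSucc ≠ Fin.last m := (Fin.castSucc_lt_last i).ne
      rw [hQ, hiu, hie]
      simp only [PiLp.add_apply, PiLp.sub_apply, PiLp.smul_apply, smul_eq_mul, hu, he,
        PiLp.single_apply, if_neg h1, if_neg h2]
      ring
    refine ⟨R.trans (Q φ), max θ ((1 + Real.cos φ) / 4), hθ0.trans (le_max_left _ _),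
      max_lt hθ1 (by linarith), fun x hx0 hx => ?_⟩
    obtain ⟨h1, h2, h3⟩ := hR x hx0 hx
    have hxj : R x j.castSucc = x j.castSucc := h2 j hj
    have hxj' := hx j
    have hl := h3
    refine ⟨fun i hi => ?_, fun i hi => ?_, ?_⟩
    · show |Q φ (R x) i.castSucc| ≤ _
      rcases Finset.mem_insert.1 hi with rfl | hi
      · refine le_trans ?_ (le_max_right _ _)
        rw [hQj, hxj]
        have h4 : |Real.cos φ * x i.castSucc| ≤ Real.cos φ * (1 / 2) := by
          rw [abs_mul, abs_of_nonneg hcos0]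
          exact mul_le_mul_of_nonneg_left hxj' hcos0
        have h5 : |Real.sin φ * R x (Fin.last m)| ≤ 1 * η' := by
          rw [abs_mul, abs_of_nonneg hsin0]
          exact mul_le_mul (Real.sin_le_one φ) hl (abs_nonneg _) zero_le_one
        have h6 := abs_add_le (Real.cos φ * x i.castSucc) (Real.sin φ * R x (Fin.last m))
        linarith
      · refine le_trans ?_ (le_max_left _ _)
        rw [hQi _ _ (fun h => hj (h ▸ hi))]
        exact h1 i hi
    · show Q φ (R x) i.castSucc = _
      have hij : i ≠ j := fun h => hi (h ▸ Finset.mem_insert_self _ _)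
      rw [hQi _ _ hij]
      exact h2 i fun h => hi (Finset.mem_insert_of_mem h)
    · show |Q φ (R x) (Fin.last m)| ≤ η
      rw [hQl, hxj]
      have h4 : |Real.cos φ * R x (Fin.last m)| ≤ 1 * η' := by
        rw [abs_mul, abs_of_nonneg hcos0]
        exact mul_le_mul (Real.cos_le_one φ) hl (abs_nonneg _) zero_le_one
      have h5 : |Real.sin φ * x j.castSucc| ≤ Real.sin φ * (1 / 2) := by
        rw [abs_mul, abs_of_nonneg hsin0]
        exact mul_le_mul_of_nonneg_left hxj' hsin0
      have h6 := abs_sub (Real.cos φ * R x (Fin.last m)) (Real.sin φ * x j.castSucc)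
      linarith

/-- Tall pyramids: two copies suffice. -/
theorem covers_tall (m : ℕ) : ∃ h₀ : ℝ, 0 < h₀ ∧ ∀ h : ℝ, h₀ ≤ h → Covers (pyramid m h) 2 := by
  obtain ⟨R, θ, hθ0, hθ1, hR⟩ := exists_rot (Finset.univ : Finset (Fin m)) (1 / 2) (by norm_num)
  have hθ2 : 0 < 1 - 2 * θ := by linarith
  refine ⟨3 / (1 - 2 * θ) + 2, by positivity, fun h hh => ?_⟩
  have h30 : 0 < 3 / (1 - 2 * θ) := by positivity
  have hh0 : 0 < h := by linarith
  have hh2 : 2 < h := by linarith
  have hh3 : 3 < h * (1 - 2 * θ) := by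
    rw [← div_lt_iff₀ hθ2]
    linarith
  let γ : E (m + 1) ≃ᵢ E (m + 1) :=
    ((IsometryEquiv.subRight (apex m 0)).trans R).trans (IsometryEquiv.addRight (apex m 1))
  have hγ : ∀ p ∈ base m, γ p ∈ interior (pyramid m h) := by
    intro p hp
    obtain ⟨hp1, hp2⟩ := hp
    have h1 := hR (p - apex m 0) (by rw [PiLp.sub_apply, apex_last, hp2, sub_zero]) (by
      intro i
      rw [PiLp.sub_apply, apex_castSucc, abs_le]
      constructor <;> linarith [(hp1 i).1, (hp1 i).2])
    obtain ⟨h2, -, h3⟩ := h1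
    have hval : γ p = R (p - apex m 0) + apex m 1 := rfl
    have h4 := abs_le.1 h3
    apply strict_subset hh0
    refine ⟨?_, ?_, fun i => ?_⟩
    · rw [hval, PiLp.add_apply, apex_last]; linarith
    · rw [hval, PiLp.add_apply, apex_last]; linarith
    · rw [hval, PiLp.add_apply, PiLp.add_apply, apex_last, apex_castSucc, add_sub_cancel_right]
      have h5 := h2 i (Finset.mem_univ i)
      have h6 : 2 * h * |R (p - apex m 0) i.castSucc| ≤ 2 * h * θ :=
        mul_le_mul_of_nonneg_left h5 (by positivity)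
      nlinarith
  refine covers_two (v := -(EuclideanSpace.single (Fin.last m) (1 : ℝ) : E (m + 1)))
    (convex_convexHull ℝ _) (isCompact_pyramid hh0) γ.symm ?_
  intro p hp
  rw [mem_pyramid hh0] at hp
  obtain ⟨h0, h1, h2⟩ := hp
  rcases eq_or_lt_of_le h0 with h3 | h3
  · right
    have hb : p ∈ base m := by
      refine ⟨fun i => ?_, h3.symm⟩
      have h4 := h2 i
      rw [← h3, sub_zero] at h4
      have h5 : |p i.castSucc - 1 / 2| ≤ 1 / 2 := by
        have : 2 * h * |p i.castSucc - 1 / 2| ≤ 2 * h * (1 / 2) := by linarith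
        exact le_of_mul_le_mul_left this (by positivity)
      have h6 := abs_le.1 h5
      constructor <;> linarith [h6.1, h6.2]
    have h4 : interior (γ.symm '' pyramid m h) = γ.symm '' interior (pyramid m h) :=
      (γ.symm.toHomeomorph.image_interior (pyramid m h)).symm
    rw [h4]
    exact ⟨γ p, hγ p hb, by simp⟩
  · left
    refine ⟨p (Fin.last m) / 2, by positivity, ?_⟩
    have hl : (p + (p (Fin.last m) / 2) •
        -(EuclideanSpace.single (Fin.last m) (1 : ℝ) : E (m + 1))) (Fin.last m) =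
        p (Fin.last m) / 2 := by
      simp
      ring
    have hi : ∀ i : Fin m, (p + (p (Fin.last m) / 2) •
        -(EuclideanSpace.single (Fin.last m) (1 : ℝ) : E (m + 1))) i.castSucc =
        p i.castSucc := by
      intro i
      have : i.castSucc ≠ Fin.last m := (Fin.castSucc_lt_last i).ne
      simp [this]
    apply strict_subset hh0
    refine ⟨?_, ?_, fun i => ?_⟩
    · rw [hl]; positivity
    · rw [hl]; linarith
    · rw [hl, hi]
      have := h2 i
      linarith

instance (m : ℕ) : Nontrivial (E (m + 1)) := by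
  have : Nonempty (Fin (m + 1)) := ⟨0⟩
  infer_instance

theorem newton_tall (m : ℕ) : ∃ h₀ : ℝ, 0 < h₀ ∧ ∀ h : ℝ, h₀ ≤ h → newton (pyramid m h) = 2 := by
  obtain ⟨h₀, h1, h2⟩ := covers_tall m
  refine ⟨h₀, h1, fun h hh => le_antisymm (Nat.sInf_le (h2 h hh)) ?_⟩
  by_contra hcon
  push Not at hcon
  have hh0 : 0 < h := by linarith
  exact Pool.Agent.Helper2.NewtonSmooth.not_covers_one (isCompact_pyramid hh0)
    (interior_pyramid hh0) (n := newton (pyramid m h)) (by omega)
    (covers_newton (isBody_pyramid hh0))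

/-- the all-zeros point, or the point `(c, …, c, 0)` of the base -/
noncomputable def corner (m : ℕ) (c : ℝ) : E (m + 1) :=
  WithLp.toLp 2 fun i => if i = Fin.last m then 0 else c

lemma corner_last (m : ℕ) (c : ℝ) : corner m c (Fin.last m) = 0 := by simp [corner]

lemma corner_castSucc (m : ℕ) (c : ℝ) (i : Fin m) : corner m c i.castSucc = c := by
  have : i.castSucc ≠ Fin.last m := (Fin.castSucc_lt_last i).ne
  simp [corner, this]

lemma corner_mem (m : ℕ) {c : ℝ} (h0 : 0 ≤ c) (h1 : c ≤ 1) : corner m c ∈ base m :=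
  ⟨fun i => by rw [corner_castSucc]; exact ⟨h0, h1⟩, corner_last m c⟩

lemma dist_eq_sqrt {m : ℕ} (x y : E (m + 1)) : dist x y =
    Real.sqrt (∑ i : Fin m, (x i.castSucc - y i.castSucc) ^ 2 +
      (x (Fin.last m) - y (Fin.last m)) ^ 2) := by
  rw [EuclideanSpace.dist_eq, Fin.sum_univ_castSucc]
  simp only [Real.dist_eq, sq_abs]

/-- the height for which the apex and two opposite vertices of the base are equidistant -/
noncomputable def hh (m : ℕ) : ℝ := Real.sqrt (3 * m) / 2

lemma hh_sq (m : ℕ) : hh m ^ 2 = 3 * m / 4 := by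
  unfold hh
  rw [div_pow, Real.sq_sqrt (by positivity)]
  norm_num

lemma hh_pos {m : ℕ} (hm : 1 ≤ m) : 0 < hh m := by
  unfold hh
  have : (0 : ℝ) < m := by exact_mod_cast hm
  positivity

lemma diam_pyramid_le (m : ℕ) : diam (pyramid m (hh m)) ≤ Real.sqrt m := by
  unfold pyramid
  rw [convexHull_diam]
  apply diam_le_of_forall_dist_le (Real.sqrt_nonneg _)
  have hba : ∀ x ∈ base m, dist x (apex m (hh m)) ≤ Real.sqrt m := by
    intro x hx
    rw [dist_eq_sqrt]
    apply Real.sqrt_le_sqrt
    rw [hx.2, apex_last, zero_sub, neg_sq, hh_sq]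
    have h1 : ∀ i : Fin m, (x i.castSucc - apex m (hh m) i.castSucc) ^ 2 ≤ 1 / 4 := by
      intro i
      rw [apex_castSucc]
      have := hx.1 i
      nlinarith [this.1, this.2]
    have h2 : ∑ i : Fin m, (x i.castSucc - apex m (hh m) i.castSucc) ^ 2 ≤
        ∑ _i : Fin m, (1 / 4 : ℝ) := Finset.sum_le_sum fun i _ => h1 i
    rw [Finset.sum_const, Finset.card_univ, Fintype.card_fin, nsmul_eq_mul] at h2
    linarith
  rintro x (hx | hx) y (hy | hy)
  · rw [dist_eq_sqrt]
    apply Real.sqrt_le_sqrt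
    rw [hx.2, hy.2, sub_zero]
    have h1 : ∀ i : Fin m, (x i.castSucc - y i.castSucc) ^ 2 ≤ 1 := by
      intro i
      have h3 := hx.1 i
      have h4 := hy.1 i
      have h5 : |x i.castSucc - y i.castSucc| ≤ 1 := by
        rw [abs_le]
        constructor <;> linarith [h3.1, h3.2, h4.1, h4.2]
      rw [← sq_abs]
      nlinarith [abs_nonneg (x i.castSucc - y i.castSucc)]
    have h2 : ∑ i : Fin m, (x i.castSucc - y i.castSucc) ^ 2 ≤ ∑ _i : Fin m, (1 : ℝ) :=
      Finset.sum_le_sum fun i _ => h1 i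
    rw [Finset.sum_const, Finset.card_univ, Fintype.card_fin, nsmul_eq_mul] at h2
    linarith
  · rw [mem_singleton_iff] at hy
    subst hy
    exact hba x hx
  · rw [mem_singleton_iff] at hx
    subst hx
    rw [dist_comm]
    exact hba y hy
  · rw [mem_singleton_iff] at hx hy
    rw [hx, hy, dist_self]
    exact Real.sqrt_nonneg _

/-- If the apex and two opposite vertices of the base form an equilateral triangle whose side is
the diameter, two copies do not suffice. -/
theorem three_le {m : ℕ} (hm : 1 ≤ m) : 3 ≤ newton (pyramid m (hh m)) := by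
  by_contra hcon
  push Not at hcon
  have hpos := hh_pos hm
  obtain ⟨k, A, hk0, hk1, -, hcov, hd⟩ := Pool.Agent.Helper2.NewtonSmooth.borsuk
    (isCompact_pyramid (m := m) hpos) (covers_newton (isBody_pyramid hpos))
  have hm0 : (0 : ℝ) < m := by exact_mod_cast hm
  have hD := diam_pyramid_le m
  have hsq : 0 < Real.sqrt m := Real.sqrt_pos.2 hm0
  have hsum : ∀ a b : ℝ, ∑ _i : Fin m, (a - b) ^ 2 = m * (a - b) ^ 2 := by
    intro a b
    rw [Finset.sum_const, Finset.card_univ, Fintype.card_fin, nsmul_eq_mul]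
  have hbm : ∀ c : ℝ, 0 ≤ c → c ≤ 1 → corner m c ∈ pyramid m (hh m) := fun c h0 h1 =>
    subset_convexHull ℝ _ (Set.mem_union_left _ (corner_mem m h0 h1))
  have ham : apex m (hh m) ∈ pyramid m (hh m) :=
    subset_convexHull ℝ _ (Set.mem_union_right _ (Set.mem_singleton _))
  have h01 : dist (corner m 0) (corner m 1) = Real.sqrt m := by
    rw [dist_eq_sqrt]
    simp only [corner_last, corner_castSucc]
    rw [hsum]
    norm_num
  have hca : ∀ c : ℝ, (c - 1 / 2) ^ 2 = 1 / 4 →
      dist (corner m c) (apex m (hh m)) = Real.sqrt m := by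
    intro c hc
    rw [dist_eq_sqrt]
    simp only [corner_last, corner_castSucc, apex_last, apex_castSucc]
    rw [hsum, hc, zero_sub, neg_sq, hh_sq]
    congr 1
    ring
  have h0a := hca 0 (by norm_num)
  have h1a := hca 1 (by norm_num)
  obtain ⟨i, hi⟩ := mem_iUnion.1 (hcov (hbm 0 le_rfl zero_le_one))
  obtain ⟨j, hj⟩ := mem_iUnion.1 (hcov (hbm 1 zero_le_one le_rfl))
  obtain ⟨l, hl⟩ := mem_iUnion.1 (hcov ham)
  have hlt : k * diam (pyramid m (hh m)) < Real.sqrt m := by
    have h1 : k * diam (pyramid m (hh m)) ≤ k * Real.sqrt m :=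
      mul_le_mul_of_nonneg_left hD hk0
    nlinarith
  have hij : i ≠ j := by
    rintro rfl
    have := hd i _ hi _ hj
    rw [h01] at this
    linarith
  have hil : i ≠ l := by
    rintro rfl
    have := hd i _ hi _ hl
    rw [h0a] at this
    linarith
  have hjl : j ≠ l := by
    rintro rfl
    have := hd j _ hj _ hl
    rw [h1a] at this
    linarith
  have h1 := i.2
  have h2 := j.2
  have h3 := l.2
  have h4 : (i : ℕ) ≠ j := fun h => hij (Fin.ext h)
  have h5 : (i : ℕ) ≠ l := fun h => hil (Fin.ext h)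
  have h6 : (j : ℕ) ≠ l := fun h => hjl (Fin.ext h)
  omega

lemma cube_body {k : ℕ} : IsBody (cube k) := by
  refine ⟨?_, ?_, ?_⟩
  · intro x hx y hy a b ha hb hab i
    have h1 := hx i
    have h2 := hy i
    simp only [PiLp.add_apply, PiLp.smul_apply, smul_eq_mul]
    constructor
    · have := h1.1; have := h2.1; positivity
    · nlinarith [h1.2, h2.2]
  · rw [isCompact_iff_isClosed_bounded]
    constructor
    · have h1 : cube k = ⋂ i, {x : E k | 0 ≤ x i ∧ x i ≤ 1} := by
        ext x
        simp [cube]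
      rw [h1]
      refine isClosed_iInter fun i => ?_
      have h2 : IsClosed {x : E k | (0 : ℝ) ≤ x i} := isClosed_le continuous_const (by fun_prop)
      have h3 : IsClosed {x : E k | x i ≤ (1 : ℝ)} := isClosed_le (by fun_prop) continuous_const
      exact h2.inter h3
    · refine (isBounded_iff_forall_norm_le).2 ⟨Real.sqrt k, fun x hx => ?_⟩
      rw [EuclideanSpace.norm_eq]
      apply Real.sqrt_le_sqrt
      have h2 : ∀ i : Fin k, ‖x i‖ ^ 2 ≤ 1 := by
        intro i
        have h3 := hx i
        rw [Real.norm_eq_abs, sq_abs]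
        nlinarith [h3.1, h3.2]
      calc ∑ i, ‖x i‖ ^ 2 ≤ ∑ _i : Fin k, (1 : ℝ) := Finset.sum_le_sum fun i _ => h2 i
        _ = k := by simp
  · refine ⟨WithLp.toLp 2 fun _ => 1 / 2, ?_⟩
    suffices hsub : {x : E k | ∀ i, 0 < x i ∧ x i < 1} ⊆ interior (cube k) by
      apply hsub
      intro i
      norm_num
    apply interior_maximal
    · intro x hx i
      exact ⟨(hx i).1.le, (hx i).2.le⟩
    · have h1 : {x : E k | ∀ i, 0 < x i ∧ x i < 1} = ⋂ i, {x : E k | 0 < x i ∧ x i < 1} := by
        ext x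
        simp
      rw [h1]
      refine isOpen_iInter_of_finite fun i => ?_
      have h2 : IsOpen {x : E k | (0 : ℝ) < x i} := isOpen_lt continuous_const (by fun_prop)
      have h3 : IsOpen {x : E k | x i < (1 : ℝ)} := isOpen_lt (by fun_prop) continuous_const
      exact h2.inter h3

theorem two_le_cube {k : ℕ} (hk : 1 ≤ k) : 2 ≤ newton (cube k) := by
  obtain ⟨n, rfl⟩ : ∃ n, k = n + 1 := ⟨k - 1, by omega⟩
  by_contra hcon
  push Not at hcon
  exact Pool.Agent.Helper2.NewtonSmooth.not_covers_one (cube_body (k := n + 1)).2.1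
    (cube_body (k := n + 1)).2.2 (n := newton (cube (n + 1))) (by omega)
    (covers_newton cube_body)

end Pool.Agent.X163.Pyramid
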