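import Mathlib
import Pool.Agent.H815R2.FlatTail

set_option autoImplicit false

/-!
# Uniformly convex bodies: concentration of linear functionals
-/

namespace Pool.Agent.X163.UConv

open MeasureTheory Set
open scoped Pointwise ENNReal

variable {d : ℕ}

/-- `K` is uniformly convex at the scale `ε`, with respect to the origin: the midpoint of two points
of `K` the difference of which is not in `ε (K - K)` is in `(1 - δ) K`. -/
def UC (K : Set (EuclideanSpace ℝ (Fin d))) (ε δ : ℝ) : Prop :=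
  ∀ x ∈ K, ∀ y ∈ K, x - y ∉ ε • (K - K) → (1 / 2 : ℝ) • (x + y) ∈ (1 - δ) • K

/-- The supporting functional. -/
theorem support {K : Set (EuclideanSpace ℝ (Fin d))} (hK : Convex ℝ K) (hKc : IsCompact K)
    (hK0 : 0 ∈ interior K) (z : EuclideanSpace ℝ (Fin d)) :
    ∃ φ : EuclideanSpace ℝ (Fin d) →L[ℝ] ℝ, (∀ x ∈ K, φ x ≤ 1) ∧ φ z = gauge K z := by
  have hnhds : K ∈ nhds (0 : EuclideanSpace ℝ (Fin d)) := mem_interior_iff_mem_nhds.mp hK0
  rcases (gauge_nonneg z : 0 ≤ gauge K z).eq_or_lt with h0 | h0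
  · have hz : z = 0 := by
      by_contra hne
      have := (gauge_pos (absorbent_nhds_zero hnhds)
        (NormedSpace.isVonNBounded_of_isBounded ℝ hKc.isBounded)).mpr hne
      linarith
    refine ⟨0, fun x _ => by simp, ?_⟩
    rw [hz]
    simp
  · set p := (gauge K z)⁻¹ • z with hp
    have hgp : gauge K p = 1 := by
      rw [hp, gauge_smul_of_nonneg (by positivity), smul_eq_mul, inv_mul_cancel₀ h0.ne']
    have hpi : p ∉ interior K := by
      intro hin
      have := (gauge_lt_one_iff_mem_interior hK hnhds).mpr hin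
      linarith
    obtain ⟨f, hf⟩ := geometric_hahn_banach_open_point hK.interior isOpen_interior hpi
    have hfp : 0 < f p := by
      have := hf 0 hK0
      rwa [map_zero] at this
    have hcl : ∀ x ∈ K, f x ≤ f p := by
      intro x hx
      have hx' : x ∈ closure (interior K) := by
        rw [hK.closure_interior_eq_closure_of_nonempty_interior ⟨0, hK0⟩]
        exact subset_closure hx
      exact closure_minimal (fun a ha => (hf a ha).le)
        (isClosed_le f.continuous continuous_const) hx'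
    refine ⟨(f p)⁻¹ • f, fun x hx => ?_, ?_⟩
    · show (f p)⁻¹ * f x ≤ 1
      rw [inv_mul_le_iff₀ hfp, mul_one]
      exact hcl x hx
    · show (f p)⁻¹ * f z = gauge K z
      have : z = gauge K z • p := by
        rw [hp, smul_smul, mul_inv_cancel₀ h0.ne', one_smul]
      have h : f z = gauge K z * f p := by
        conv_lhs => rw [this]
        rw [map_smul, smul_eq_mul]
      rw [h]
      field_simp

/-- One-sided concentration. -/
theorem one_sided {K : Set (EuclideanSpace ℝ (Fin d))} (hKc : IsCompact K)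
    (hK0 : 0 ∈ interior K) {ε δ b : ℝ} (hε : 0 ≤ ε) (hδ1 : δ ≤ 1) (hb : 0 ≤ b)
    (hεb : 8 * ε * b ≤ 1) (hη : 8 * b * (1 - δ) ^ d ≤ 1) (hη1 : 2 * (1 - δ) ^ d ≤ 1)
    (hUC : UC K ε δ) (ψ : EuclideanSpace ℝ (Fin d) →L[ℝ] ℝ) (hlow : ∀ x ∈ K, -b ≤ ψ x)
    (hosc : ∀ x ∈ K, ∀ y ∈ K, ψ x - ψ y ≤ b) (hcen : ∫ x in K, ψ x = 0) :
    (volume {z ∈ K | 1 / 4 ≤ ψ z}).toReal ≤ 2 * (1 - δ) ^ d * (volume K).toReal := by
  have hnhds : K ∈ nhds (0 : EuclideanSpace ℝ (Fin d)) := mem_interior_iff_mem_nhds.mp hK0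
  have hV0 : volume K ≠ 0 := (Measure.measure_pos_of_mem_nhds volume hnhds).ne'
  have hVt : volume K ≠ ⊤ := hKc.measure_lt_top.ne
  have hV : 0 < (volume K).toReal := ENNReal.toReal_pos hV0 hVt
  have hKm : MeasurableSet K := hKc.isClosed.measurableSet
  set V := (volume K).toReal with hVdef
  set η := (1 - δ) ^ d with hηdef
  have hη0 : 0 ≤ η := pow_nonneg (by linarith) _
  set P := {z ∈ K | 1 / 4 ≤ ψ z} with hP
  set B := {z ∈ K | ψ z < 1 / 8} with hB
  have hPm : MeasurableSet P :=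
    hKm.inter (measurableSet_le measurable_const ψ.continuous.measurable)
  have hBm : MeasurableSet B :=
    hKm.inter (measurableSet_lt ψ.continuous.measurable measurable_const)
  have hPt : volume P ≠ ⊤ := ne_top_of_le_ne_top hVt (measure_mono fun z hz => hz.1)
  have hBt : volume B ≠ ⊤ := ne_top_of_le_ne_top hVt (measure_mono fun z hz => hz.1)
  -- Brunn-Minkowski
  have hmid : ∀ x ∈ P, ∀ y ∈ B, (1 / 2 : ℝ) • (x + y) ∈ (1 - δ) • K := by
    rintro x ⟨hx, hx'⟩ y ⟨hy, hy'⟩
    refine hUC x hx y hy ?_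
    rintro ⟨w, ⟨k, hk, k', hk', rfl⟩, hw⟩
    have h1 : ψ x - ψ y = ε * (ψ k - ψ k') := by
      rw [← map_sub, ← hw]
      show ψ (ε • (k - k')) = _
      rw [map_smul, map_sub, smul_eq_mul]
    have h2 := mul_le_mul_of_nonneg_left (hosc k hk k' hk') hε
    have h3 : ψ x - ψ y > 1 / 8 := by linarith
    nlinarith
  have hbm := Pool.Agent.H815R2.Flat.bm_E hPm hBm
    ((hKc.smul (1 - δ)).isClosed.measurableSet) hmid
  have hvol : volume ((1 - δ) • K) = ENNReal.ofReal η * volume K := by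
    rw [Measure.addHaar_smul, finrank_euclideanSpace, Fintype.card_fin, abs_of_nonneg]
    exact hη0
  rw [hvol] at hbm
  set p := (volume P).toReal with hp
  set q := (volume B).toReal with hq
  have hp0 : 0 ≤ p := ENNReal.toReal_nonneg
  have hq0 : 0 ≤ q := ENNReal.toReal_nonneg
  have hpq : p * q ≤ (η * V) ^ 2 := by
    have := ENNReal.toReal_mono (by
      exact ENNReal.pow_ne_top (ENNReal.mul_ne_top ENNReal.ofReal_ne_top hVt)) hbm
    rw [ENNReal.toReal_mul, ENNReal.toReal_pow, ENNReal.toReal_mul,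
      ENNReal.toReal_ofReal hη0] at this
    exact this
  by_contra hcon
  push Not at hcon
  have hq1 : 2 * q ≤ η * V := by
    by_contra hc
    push Not at hc
    have : (2 * η * V) * (η * V / 2) < p * q := by
      have h1 : 0 ≤ η * V := by positivity
      have h2 : 0 < p := lt_of_le_of_lt (by positivity) hcon
      have h3 : 0 < q := by nlinarith
      nlinarith
    nlinarith
  -- the integral
  have hint : IntegrableOn ψ K := ψ.continuous.continuousOn.integrableOn_compact hKc
  have hI : ∫ x in K, (1 / 8 - (b + 1 / 8) * B.indicator (fun _ => (1 : ℝ)) x) ≤ ∫ x in K, ψ x := by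
    apply setIntegral_mono_on _ hint hKm
    · intro x hx
      by_cases hxB : x ∈ B
      · rw [Set.indicator_of_mem hxB]
        have := hlow x hx
        linarith
      · rw [Set.indicator_of_notMem hxB]
        have : ¬ ψ x < 1 / 8 := fun h => hxB ⟨hx, h⟩
        linarith
    · apply Integrable.sub
      · exact integrableOn_const hVt
      · apply Integrable.const_mul
        apply IntegrableOn.indicator _ hBm
        exact integrableOn_const hVt
  have hB1 : ∫ x in K, B.indicator (fun _ => (1 : ℝ)) x = q := by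
    rw [setIntegral_indicator hBm, setIntegral_const, smul_eq_mul, mul_one]
    have : K ∩ B = B := by
      ext z
      exact ⟨fun h => h.2, fun h => ⟨h.1, h⟩⟩
    rw [this]
    rfl
  have hI2 : ∫ x in K, (1 / 8 - (b + 1 / 8) * B.indicator (fun _ => (1 : ℝ)) x)
      = 1 / 8 * V - (b + 1 / 8) * q := by
    rw [integral_sub, integral_const_mul, hB1, setIntegral_const, smul_eq_mul]
    · show volume.real K * (1 / 8) - _ = _
      rw [show volume.real K = V from rfl]
      ring
    · exact integrableOn_const hVt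
    · apply Integrable.const_mul
      apply IntegrableOn.indicator _ hBm
      exact integrableOn_const hVt
  rw [hI2, hcen] at hI
  nlinarith

/-- Thinness of all functionals. -/
theorem thin {K : Set (EuclideanSpace ℝ (Fin d))} (hKc : IsCompact K)
    (hK0 : 0 ∈ interior K) {ε δ a : ℝ} (hε : 0 ≤ ε) (hδ1 : δ ≤ 1) (ha : 0 ≤ a)
    (hεb : 8 * ε * (1 + a) ≤ 1) (hη : 8 * (1 + a) * (1 - δ) ^ d ≤ 1)
    (hUC : UC K ε δ) (hKa : ∀ x ∈ K, -x ∈ a • K) (hcen : ∫ x in K, x = 0)
    (φ : EuclideanSpace ℝ (Fin d) →L[ℝ] ℝ) (hφ : ∀ x ∈ K, φ x ≤ 1) :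
    (volume {z ∈ K | 1 / 4 ≤ |φ z|}).toReal ≤ 4 * (1 - δ) ^ d * (volume K).toReal := by
  have hVt : volume K ≠ ⊤ := hKc.measure_lt_top.ne
  have hlow : ∀ x ∈ K, -a ≤ φ x := by
    intro x hx
    obtain ⟨k, hk, hkx⟩ := hKa x hx
    have h1 : φ (-x) = a * φ k := by
      rw [← hkx]
      show φ (a • k) = _
      rw [map_smul, smul_eq_mul]
    rw [map_neg] at h1
    have := mul_le_mul_of_nonneg_left (hφ k hk) ha
    linarith
  have hcenφ : ∀ ψ : EuclideanSpace ℝ (Fin d) →L[ℝ] ℝ, ∫ x in K, ψ x = 0 := by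
    intro ψ
    have hint : IntegrableOn (fun x : EuclideanSpace ℝ (Fin d) => x) K :=
      continuous_id.continuousOn.integrableOn_compact hKc
    rw [ContinuousLinearMap.integral_comp_comm ψ hint, hcen, map_zero]
  have hη0 : 0 ≤ (1 - δ) ^ d := pow_nonneg (by linarith) _
  have hη1 : 2 * (1 - δ) ^ d ≤ 1 := by nlinarith
  have h1 := one_sided hKc hK0 hε hδ1 (by linarith : (0:ℝ) ≤ 1 + a) hεb hη hη1 hUC φ
    (fun x hx => by have := hlow x hx; linarith)
    (fun x hx y hy => by have := hlow y hy; have := hφ x hx; linarith) (hcenφ φ)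
  have h2 := one_sided hKc hK0 hε hδ1 (by linarith : (0:ℝ) ≤ 1 + a) hεb hη hη1 hUC (-φ)
    (fun x hx => by
      have := hφ x hx
      show -(1 + a) ≤ -(φ x)
      linarith)
    (fun x hx y hy => by
      have := hlow x hx
      have := hφ y hy
      show -(φ x) - -(φ y) ≤ 1 + a
      linarith) (hcenφ (-φ))
  have hsub : {z ∈ K | 1 / 4 ≤ |φ z|} ⊆ {z ∈ K | 1 / 4 ≤ φ z} ∪ {z ∈ K | 1 / 4 ≤ (-φ) z} := by
    rintro z ⟨hz, hz'⟩
    rcases le_abs.1 hz' with h | h
    · exact Or.inl ⟨hz, h⟩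
    · exact Or.inr ⟨hz, h⟩
  have hfin : ∀ s : Set (EuclideanSpace ℝ (Fin d)), s ⊆ K → volume s ≠ ⊤ := fun s hs =>
    ne_top_of_le_ne_top hVt (measure_mono hs)
  calc (volume {z ∈ K | 1 / 4 ≤ |φ z|}).toReal
      ≤ (volume {z ∈ K | 1 / 4 ≤ φ z} + volume {z ∈ K | 1 / 4 ≤ (-φ) z}).toReal := by
        apply ENNReal.toReal_mono
        · exact ENNReal.add_ne_top.2 ⟨hfin _ fun z hz => hz.1, hfin _ fun z hz => hz.1⟩
        · exact (measure_mono hsub).trans (measure_union_le _ _)
    _ = (volume {z ∈ K | 1 / 4 ≤ φ z}).toReal + (volume {z ∈ K | 1 / 4 ≤ (-φ) z}).toReal :=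
        ENNReal.toReal_add (hfin _ fun z hz => hz.1) (hfin _ fun z hz => hz.1)
    _ ≤ _ := by linarith

end Pool.Agent.X163.UConv
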