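import Mathlib

set_option autoImplicit false

/-!
# The volume of the difference body, and the depth of the centroid of a uniformly convex body
-/

namespace Pool.Agent.X163.UConv2

open MeasureTheory Set
open scoped Pointwise ENNReal

variable {d : ℕ}

/-- A weak form of the Rogers-Shephard inequality: `|K - K| ≤ 4^d |K|`. -/
theorem vol_diff {K : Set (EuclideanSpace ℝ (Fin d))} (hK : Convex ℝ K) (hKc : IsCompact K)
    (hKi : (interior K).Nonempty) : volume (K - K) ≤ 4 ^ d * volume K := by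
  classical
  have hKm : MeasurableSet K := hKc.isClosed.measurableSet
  have hV0 : volume K ≠ 0 :=
    (lt_of_lt_of_le (isOpen_interior.measure_pos volume hKi) (measure_mono interior_subset)).ne'
  have hVt : volume K ≠ ⊤ := hKc.measure_lt_top.ne
  set f : EuclideanSpace ℝ (Fin d) → ℝ≥0∞ := K.indicator 1 with hf
  have hfm : Measurable f := measurable_one.indicator hKm
  have hf1 : ∫⁻ x, f x = volume K := by
    rw [hf, lintegral_indicator_one hKm]
  have hint : ∫⁻ z : EuclideanSpace ℝ (Fin d), ∫⁻ x, f x * f (x - z) = volume K * volume K := by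
    rw [lintegral_lintegral_swap]
    · have h1 : ∀ x : EuclideanSpace ℝ (Fin d), ∫⁻ z, f x * f (x - z) = f x * volume K := by
        intro x
        have hm : Measurable (fun z : EuclideanSpace ℝ (Fin d) => f (x - z)) :=
          hfm.comp (measurable_const.sub measurable_id)
        rw [lintegral_const_mul _ hm, lintegral_sub_left_eq_self f x, hf1]
      simp_rw [h1]
      rw [lintegral_mul_const _ hfm, hf1]
    · exact ((hfm.comp measurable_snd).mul
        (hfm.comp (measurable_snd.sub measurable_fst))).aemeasurable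
  have hD : IsCompact (K - K) := by
    rw [sub_eq_add_neg]
    exact hKc.add hKc.neg
  have hlow : ∀ z ∈ (2⁻¹ : ℝ) • (K - K), (2⁻¹ : ℝ≥0∞) ^ d * volume K ≤ ∫⁻ x, f x * f (x - z) := by
    rintro z ⟨w, ⟨a, ha, b, hb, rfl⟩, rfl⟩
    have hsub : (2⁻¹ : ℝ) • a +ᵥ ((2⁻¹ : ℝ) • K) ⊆
        {x | x ∈ K ∧ x - (2⁻¹ : ℝ) • (a - b) ∈ K} := by
      rintro x ⟨y, ⟨k, hk, rfl⟩, rfl⟩
      refine ⟨?_, ?_⟩
      · have := hK ha hk (show (0:ℝ) ≤ 2⁻¹ by norm_num) (show (0:ℝ) ≤ 2⁻¹ by norm_num)
          (by norm_num)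
        exact this
      · have := hK hb hk (show (0:ℝ) ≤ 2⁻¹ by norm_num) (show (0:ℝ) ≤ 2⁻¹ by norm_num)
          (by norm_num)
        have e : (2⁻¹ : ℝ) • a + (2⁻¹ : ℝ) • k - (2⁻¹ : ℝ) • (a - b) =
            (2⁻¹ : ℝ) • b + (2⁻¹ : ℝ) • k := by
          rw [smul_sub]; abel
        show (2⁻¹ : ℝ) • a + (2⁻¹ : ℝ) • k - (2⁻¹ : ℝ) • (a - b) ∈ K
        rw [e]
        exact this
    have hm1 : MeasurableSet {x | x ∈ K ∧ x - (2⁻¹ : ℝ) • (a - b) ∈ K} :=
      hKm.inter (hKm.preimage (measurable_id.sub measurable_const))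
    have e1 : ∫⁻ x, f x * f (x - (2⁻¹ : ℝ) • (a - b)) =
        volume {x | x ∈ K ∧ x - (2⁻¹ : ℝ) • (a - b) ∈ K} := by
      rw [← lintegral_indicator_one hm1]
      refine lintegral_congr fun x => ?_
      by_cases h1 : x ∈ K <;> by_cases h2 : x - (2⁻¹ : ℝ) • (a - b) ∈ K <;>
        simp only [hf, Set.indicator, h1, h2, Set.mem_ofPred_eq, Pi.one_apply, if_true, if_false,
          and_self, and_true, and_false, mul_zero, mul_one]
    have e2 : volume ((2⁻¹ : ℝ) • a +ᵥ ((2⁻¹ : ℝ) • K)) = (2⁻¹ : ℝ≥0∞) ^ d * volume K := by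
      rw [measure_vadd, Measure.addHaar_smul, finrank_euclideanSpace, Fintype.card_fin,
        abs_of_nonneg (by positivity), ENNReal.ofReal_pow (by norm_num)]
      congr 2
      rw [ENNReal.ofReal_inv_of_pos (by norm_num)]
      norm_num
    show _ ≤ ∫⁻ x, f x * f (x - (2⁻¹ : ℝ) • (a - b))
    rw [e1, ← e2]
    exact measure_mono hsub
  have hm2 : MeasurableSet ((2⁻¹ : ℝ) • (K - K)) := (hD.smul (2⁻¹ : ℝ)).isClosed.measurableSet
  have h3 : volume ((2⁻¹ : ℝ) • (K - K)) * ((2⁻¹ : ℝ≥0∞) ^ d * volume K) ≤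
      volume K * volume K := by
    rw [← hint, mul_comm, ← setLIntegral_const]
    refine (setLIntegral_mono' hm2 hlow).trans (setLIntegral_le_lintegral _ _)
  have e3 : volume ((2⁻¹ : ℝ) • (K - K)) = (2⁻¹ : ℝ≥0∞) ^ d * volume (K - K) := by
    rw [Measure.addHaar_smul, finrank_euclideanSpace, Fintype.card_fin,
      abs_of_nonneg (by positivity), ENNReal.ofReal_pow (by norm_num)]
    congr 2
    rw [ENNReal.ofReal_inv_of_pos (by norm_num)]
    norm_num
  rw [e3] at h3
  have h4 : (2⁻¹ : ℝ≥0∞) ^ d * (2⁻¹ : ℝ≥0∞) ^ d * volume (K - K) ≤ volume K := by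
    have h5 : (2⁻¹ : ℝ≥0∞) ^ d * (2⁻¹ : ℝ≥0∞) ^ d * volume (K - K) * volume K ≤
        volume K * volume K := by
      calc _ = (2⁻¹ : ℝ≥0∞) ^ d * volume (K - K) * ((2⁻¹ : ℝ≥0∞) ^ d * volume K) := by ring
        _ ≤ _ := h3
    exact (ENNReal.mul_le_mul_iff_left hV0 hVt).1 h5
  have e4 : (4 : ℝ≥0∞) ^ d * ((2⁻¹ : ℝ≥0∞) ^ d * (2⁻¹ : ℝ≥0∞) ^ d) = 1 := by
    rw [← mul_pow, ← mul_pow]
    have : (4 : ℝ≥0∞) * (2⁻¹ * 2⁻¹) = 1 := by
      rw [show (4 : ℝ≥0∞) = 2 * 2 by norm_num]
      calc (2 : ℝ≥0∞) * 2 * (2⁻¹ * 2⁻¹) = (2 * 2⁻¹) * (2 * 2⁻¹) := by ring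
        _ = 1 := by rw [ENNReal.mul_inv_cancel (by norm_num) (by norm_num), one_mul]
    rw [this, one_pow]
  calc volume (K - K) = (4 : ℝ≥0∞) ^ d * ((2⁻¹ : ℝ≥0∞) ^ d * (2⁻¹ : ℝ≥0∞) ^ d) * volume (K - K) := by
        rw [e4, one_mul]
    _ = 4 ^ d * ((2⁻¹ : ℝ≥0∞) ^ d * (2⁻¹ : ℝ≥0∞) ^ d * volume (K - K)) := by ring
    _ ≤ 4 ^ d * volume K := by gcongr

/-- The centroid of a uniformly convex body is deep inside of it. -/
theorem deep {K : Set (EuclideanSpace ℝ (Fin d))} (hd : 1 ≤ d) (hK : Convex ℝ K)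
    (hKc : IsCompact K) (hKi : (interior K).Nonempty) {ε δ : ℝ} (hε0 : 0 ≤ ε) (hε : ε ≤ 1 / 8)
    (hδ0 : 0 ≤ δ)
    (hUC : ∀ x ∈ K, ∀ y ∈ K, x - y ∉ ε • (K - K) → ∀ w ∈ K - K,
      (1 / 2 : ℝ) • (x + y) + δ • w ∈ K) (hcen : ∫ x in K, x = 0) :
    ∀ w ∈ K - K, (δ / 2) • w ∈ K := by
  have hKm : MeasurableSet K := hKc.isClosed.measurableSet
  have hV0 : volume K ≠ 0 :=
    (lt_of_lt_of_le (isOpen_interior.measure_pos volume hKi) (measure_mono interior_subset)).ne'
  have hVt : volume K ≠ ⊤ := hKc.measure_lt_top.ne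
  have hint : IntegrableOn (fun x : EuclideanSpace ℝ (Fin d) => x) K :=
    continuous_id.continuousOn.integrableOn_compact hKc
  have h0 : (0 : EuclideanSpace ℝ (Fin d)) ∈ K := by
    have h := hK.set_average_mem hKc.isClosed hV0 hVt
      (f := fun x : EuclideanSpace ℝ (Fin d) => x) ((ae_restrict_iff' hKm).2 (ae_of_all _ fun x hx => hx)) hint
    rw [setAverage_eq, hcen, smul_zero] at h
    exact h
  intro w hw
  by_contra hcon
  obtain ⟨φ, s, hφ1, hφ2⟩ := geometric_hahn_banach_closed_point hK hKc.isClosed hcon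
  have hs0 : 0 < s := by
    have := hφ1 0 h0
    rwa [map_zero] at this
  have hφw : s < δ / 2 * φ w := by
    have := hφ2
    rwa [map_smul, smul_eq_mul] at this
  set V := (volume K).toReal with hV
  have hVpos : 0 < V := ENNReal.toReal_pos hV0 hVt
  -- the exceptional set
  set B := {y ∈ K | (0 : EuclideanSpace ℝ (Fin d)) - y ∈ ε • (K - K)} with hB
  have hDc : IsCompact (ε • (K - K)) := by
    rw [sub_eq_add_neg]
    exact (hKc.add hKc.neg).smul ε
  have hBm : MeasurableSet B :=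
    hKm.inter (hDc.isClosed.measurableSet.preimage (measurable_const.sub measurable_id))
  have hBv : volume B ≤ ENNReal.ofReal (1 / 2) * volume K := by
    have h1 : volume B ≤ volume (-(ε • (K - K))) := by
      apply measure_mono
      rintro y ⟨-, hy⟩
      rw [Set.mem_neg, ← zero_sub]
      exact hy
    rw [Measure.measure_neg, Measure.addHaar_smul, finrank_euclideanSpace, Fintype.card_fin,
      abs_of_nonneg (by positivity)] at h1
    refine h1.trans ?_
    calc ENNReal.ofReal (ε ^ d) * volume (K - K)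
        ≤ ENNReal.ofReal (ε ^ d) * (4 ^ d * volume K) := by
          gcongr
          exact vol_diff hK hKc hKi
      _ = ENNReal.ofReal (ε ^ d * 4 ^ d) * volume K := by
          rw [ENNReal.ofReal_mul (by positivity), ENNReal.ofReal_pow (by norm_num : (0:ℝ) ≤ 4),
            ← mul_assoc]
          norm_num
      _ ≤ ENNReal.ofReal (1 / 2) * volume K := by
          gcongr
          rw [← mul_pow]
          calc (ε * 4) ^ d ≤ (1 / 2) ^ d := by
                gcongr
                linarith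
            _ ≤ (1 / 2) ^ 1 := pow_le_pow_of_le_one (by norm_num) (by norm_num) hd
            _ = 1 / 2 := by norm_num
  have hBr : (volume B).toReal ≤ V / 2 := by
    have := ENNReal.toReal_mono (ENNReal.mul_ne_top ENNReal.ofReal_ne_top hVt) hBv
    rw [ENNReal.toReal_mul, ENNReal.toReal_ofReal (by norm_num)] at this
    linarith
  -- the integral of `φ / 2 + δ φ(w) 1_{Bᶜ}` over `K`
  have hpt : ∀ y ∈ K, φ y / 2 + δ * φ w * (1 - B.indicator (fun _ => (1:ℝ)) y) ≤ s := by
    intro y hy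
    by_cases hyB : y ∈ B
    · rw [Set.indicator_of_mem hyB]
      have := (hφ1 y hy).le
      linarith
    · rw [Set.indicator_of_notMem hyB]
      have h1 : (0 : EuclideanSpace ℝ (Fin d)) - y ∉ ε • (K - K) := fun h => hyB ⟨hy, h⟩
      have h2 := (hφ1 _ (hUC 0 h0 y hy h1 w hw)).le
      rw [zero_add, map_add, map_smul, map_smul, smul_eq_mul, smul_eq_mul] at h2
      linarith
  have hBint : IntegrableOn (B.indicator (fun _ => (1:ℝ))) K := by
    apply IntegrableOn.indicator _ hBm
    exact integrableOn_const hVt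
  have hφint : IntegrableOn (fun y => φ y / 2) K :=
    (φ.continuous.div_const 2).continuousOn.integrableOn_compact hKc
  have h1int : IntegrableOn (fun y : EuclideanSpace ℝ (Fin d) => δ * φ w *
      (1 - B.indicator (fun _ => (1:ℝ)) y)) K := by
    apply Integrable.const_mul
    apply Integrable.sub
    · exact integrableOn_const hVt
    · exact hBint
  have hI : ∫ y in K, (φ y / 2 + δ * φ w * (1 - B.indicator (fun _ => (1:ℝ)) y)) ≤
      ∫ y in K, (s : ℝ) := by
    apply setIntegral_mono_on _ _ hKm hpt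
    · exact hφint.add h1int
    · exact integrableOn_const hVt
  have hB1 : ∫ x in K, B.indicator (fun _ => (1 : ℝ)) x = (volume B).toReal := by
    rw [setIntegral_indicator hBm, setIntegral_const, smul_eq_mul, mul_one]
    have : K ∩ B = B := by
      ext z
      exact ⟨fun h => h.2, fun h => ⟨h.1, h⟩⟩
    rw [this]
    rfl
  have hφ0 : ∫ y in K, φ y = 0 := by
    rw [ContinuousLinearMap.integral_comp_comm φ hint, hcen, map_zero]
  have hI2 : ∫ y in K, (φ y / 2 + δ * φ w * (1 - B.indicator (fun _ => (1:ℝ)) y)) =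
      δ * φ w * (V - (volume B).toReal) := by
    rw [integral_add hφint h1int, integral_div, hφ0, integral_const_mul, integral_sub, hB1,
      setIntegral_const, smul_eq_mul]
    · show 0 / 2 + δ * φ w * (volume.real K * 1 - _) = _
      rw [show volume.real K = V from rfl]
      ring
    · exact integrableOn_const hVt
    · exact hBint
  rw [hI2, setIntegral_const, smul_eq_mul] at hI
  have hI3 : δ * φ w * (V - (volume B).toReal) ≤ V * s := hI
  have hδφ : 0 < δ * φ w := by linarith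
  have : δ * φ w * (V / 2) ≤ δ * φ w * (V - (volume B).toReal) := by
    gcongr
    linarith
  nlinarith

end Pool.Agent.X163.UConv2
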