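import Pool.Agent.Results.MP_f80465_gt.CoamenableSubgroups

/-!
# The Euler–Poincaré formula and one-parity vanishing
-/

set_option autoImplicit false

universe u

namespace Pool.Agent.X163.CO

open Pool.Agent.Results.MP_f80465_gt.CoamenableSubgroups W649.ZL X190.TW X190.AT

variable {G : Type u} [Group G]

theorem betti_formula {l m n : ℕ} (D' : Matrix (Fin l) (Fin m) (G →₀ ℂ))
    (D : Matrix (Fin m) (Fin n) (G →₀ ℂ)) :
    betti D' D = kerDimM D + kerDimM D' - l := by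
  unfold betti
  rw [(betti_eq D' D).1, (betti_eq D' D).2]
  ring

theorem nonneg {l m n : ℕ} (D' : Matrix (Fin l) (Fin m) (G →₀ ℂ))
    (D : Matrix (Fin m) (Fin n) (G →₀ ℂ)) (h : IsComplex D' D) : 0 ≤ betti D' D := by
  rw [betti_formula]
  have := betti_nonneg D' D h
  linarith

theorem ker_empty {m n : ℕ} (D : Matrix (Fin m) (Fin n) (G →₀ ℂ)) (h : m = 0) : kerDimM D = 0 := by
  unfold kerDimM
  apply Finset.sum_eq_zero
  intro i _
  have hlt := i.2
  omega

theorem ker_top {m n : ℕ} (D : Matrix (Fin m) (Fin n) (G →₀ ℂ)) (h : n = 0) : kerDimM D = m := by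
  obtain ⟨T, hT⟩ := exists_supp D
  obtain ⟨S, hS, hSk, _, _⟩ := op D T hT
  have h4 : LinearMap.ker (S : EE G (Fin m) →ₗ[ℂ] EE G (Fin n)) = ⊤ := by
    rw [eq_top_iff]
    intro F _
    change S F = 0
    ext ⟨x, i⟩
    have hlt := i.2
    omega
  rw [hSk, h4, vd_top, Fintype.card_fin]

variable (c : ℕ → ℕ) (N : ℕ) (D : ∀ p, Matrix (Fin (c (p + 1))) (Fin (c p)) (G →₀ ℂ))

theorem partial_sum (hc : c 0 = 0) (M : ℕ) :
    ∑ p ∈ Finset.range M, (-1 : ℝ) ^ p * betti (D (p + 1)) (D p) =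
      ∑ p ∈ Finset.range (M + 1), (-1 : ℝ) ^ p * (c (p + 1) : ℝ) - (-1 : ℝ) ^ M * kerDimM (D M) := by
  induction M with
  | zero =>
    rw [Finset.sum_range_zero, Finset.sum_range_one, ker_top (D 0) hc]
    simp
  | succ M ih =>
    rw [Finset.sum_range_succ, ih, Finset.sum_range_succ _ (M + 1), betti_formula]
    rw [pow_succ]
    ring

/-- The Euler–Poincaré formula. -/
theorem euler (hc : c 0 = 0) (hN : ∀ p, N < p → c p = 0) :
    ((∑ p ∈ Finset.range N, (-1 : ℤ) ^ p * (c (p + 1) : ℤ) : ℤ) : ℝ) =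
      ∑ p ∈ Finset.range N, (-1 : ℝ) ^ p * betti (D (p + 1)) (D p) := by
  rw [partial_sum c D hc N, ker_empty (D N) (hN _ (Nat.lt_succ_self N)), Finset.sum_range_succ,
    hN (N + 1) (Nat.lt_succ_self N)]
  push_cast
  ring

theorem betti_top (hN : ∀ p, N < p → c p = 0) {p : ℕ} (hp : N ≤ p) :
    betti (D (p + 1)) (D p) = 0 := by
  rw [betti_formula, ker_empty (D p) (hN _ (by omega)), ker_empty (D (p + 1)) (hN _ (by omega)),
    hN (p + 1 + 1) (by omega)]
  simp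

/-- If the `ℓ²`-Betti numbers of one parity vanish, then all of them vanish if and only if the Euler
characteristic is zero. -/
theorem parity (hc : c 0 = 0) (hN : ∀ p, N < p → c p = 0)
    (hD : ∀ p, IsComplex (D (p + 1)) (D p)) (e : ℕ)
    (h : ∀ p, p % 2 = e % 2 → betti (D (p + 1)) (D p) = 0) :
    ((∀ p, betti (D (p + 1)) (D p) = 0) ↔
      ∑ p ∈ Finset.range N, (-1 : ℤ) ^ p * (c (p + 1) : ℤ) = 0) ∧
    0 ≤ (-1 : ℤ) ^ (e + 1) * ∑ p ∈ Finset.range N, (-1 : ℤ) ^ p * (c (p + 1) : ℤ) := by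
  have key : (((-1 : ℤ) ^ (e + 1) * ∑ p ∈ Finset.range N, (-1 : ℤ) ^ p * (c (p + 1) : ℤ) : ℤ) : ℝ) =
      ∑ p ∈ Finset.range N, betti (D (p + 1)) (D p) := by
    push_cast
    have h1 := euler c N D hc hN
    push_cast at h1
    rw [h1, Finset.mul_sum]
    refine Finset.sum_congr rfl fun p _ => ?_
    by_cases hp : p % 2 = e % 2
    · rw [h p hp, mul_zero, mul_zero]
    · rw [← mul_assoc, ← pow_add]
      have h2 : Even (e + 1 + p) := by
        rw [Nat.even_iff]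
        omega
      rw [h2.neg_one_pow, one_mul]
  have hsum : 0 ≤ ∑ p ∈ Finset.range N, betti (D (p + 1)) (D p) :=
    Finset.sum_nonneg fun p _ => nonneg _ _ (hD p)
  refine ⟨⟨fun h0 => ?_, fun h0 p => ?_⟩, ?_⟩
  · have h1 := euler c N D hc hN
    have h2 : ∑ p ∈ Finset.range N, (-1 : ℝ) ^ p * betti (D (p + 1)) (D p) = 0 :=
      Finset.sum_eq_zero fun p _ => by rw [h0 p, mul_zero]
    rw [h2] at h1
    exact_mod_cast h1
  · rw [h0, mul_zero, Int.cast_zero] at key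
    rcases lt_or_ge p N with hp | hp
    · exact (Finset.sum_eq_zero_iff_of_nonneg (fun p _ => nonneg _ _ (hD p))).1 key.symm p
        (Finset.mem_range.2 hp)
    · exact betti_top c N D hN hp
  · have h1 : (0 : ℝ) ≤ (((-1 : ℤ) ^ (e + 1) *
        ∑ p ∈ Finset.range N, (-1 : ℤ) ^ p * (c (p + 1) : ℤ) : ℤ) : ℝ) := key ▸ hsum
    exact_mod_cast h1

end Pool.Agent.X163.CO
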