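import Pool.Agent.X163.Lim2
import Pool.Agent.TH84.NC.Main2
import Pool.Agent.TH84.NC.Num3
import Pool.Agent.Results.MP_eba1ef_gt.AllConvexBodies
import Pool.Agent.Results.MP_eba1ef_gt.SmallNormalCones

set_option autoImplicit false

/-!
Illumination of the points of a convex subset.
-/

open Set Topology Filter
open scoped Pointwise RealInnerProductSpace
open Pool.Agent.H843R3.Had2 Pool.Agent.W677.Shadow Pool.Agent.W677.Summand

namespace Pool.Agent.X163.Hull

/-- The points of a compact convex subset `A` of `K` are illuminated by as many directions as are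
needed for `A` in its affine hull. -/
theorem illum_sub {n : ℕ} {K A : Set (Eu n)} {U : Type*} [NormedAddCommGroup U] [NormedSpace ℝ U]
    {a₀ : Eu n} {ι : U →ₗᵢ[ℝ] Eu n} (hK : Convex ℝ K) (hKi : (interior K).Nonempty)
    (hι : ∀ x, x ∈ vectorSpan ℝ A ↔ ∃ u, ι u = x) (ha : a₀ ∈ A) (hA : Convex ℝ A)
    (hAc : IsCompact A) (hAK : A ⊆ K) (N : ℕ) (hN : Cov (Lset ι A a₀) N) :
    ∃ V : Finset (Eu n), V.card ≤ N ∧ ∀ x ∈ A, ∃ v ∈ V, ∃ t : ℝ, 0 < t ∧ x + t • v ∈ interior K := by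
  classical
  obtain ⟨p, hp⟩ := hKi
  obtain ⟨W, hW, hW1⟩ := dirs_of_cover hN
  have hL : Convex ℝ (Lset ι A a₀) := Lset_convex hA
  have hLc : IsCompact (Lset ι A a₀) := Lset_compact (fun x hx => (hι x).1 hx) ha hAc
  obtain ⟨q, hq, hq1⟩ := unif hL hLc subset_rfl (fun w : W => (w : U)) (by
    intro x hx
    obtain ⟨v, hv, h1⟩ := hW1 x hx
    exact ⟨⟨v, hv⟩, h1⟩)
  obtain ⟨ρ, hρ, hρ1⟩ := depth hLc W q (fun y hy => by
    obtain ⟨w, hw⟩ := hq1 y hy
    exact ⟨w, w.2, hw⟩)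
  obtain ⟨C, hC⟩ := hLc.isBounded.exists_norm_le
  set D : ℝ := max C 0 + 1 with hD
  have hD0 : 0 < D := by positivity
  set R : ℝ := q * D / ρ with hR
  have hR0 : 0 < R := by positivity
  refine ⟨W.image (fun w => R • ι w + (p - a₀)), Finset.card_image_le.trans hW, fun x hx => ?_⟩
  obtain ⟨y, hy⟩ := (hι (x - a₀)).1 (vsub_mem_vectorSpan ℝ hx ha)
  have hxy : x = a₀ + ι y := by rw [hy]; abel
  have hyL : y ∈ Lset ι A a₀ := by
    show a₀ + ι y ∈ A
    rw [← hxy]; exact hx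
  obtain ⟨w, hw, hw1⟩ := hρ1 y hyL
  refine ⟨_, Finset.mem_image_of_mem _ hw, ?_⟩
  have hcn : Cn K x (R • ι w + ι y) := by
    refine ⟨q / R, by positivity, hAK ?_⟩
    have h1 : y + q • w + (q / R) • y ∈ Lset ι A a₀ := by
      apply hw1
      rw [norm_smul, Real.norm_of_nonneg (by positivity)]
      have h2 : q / R = ρ / D := by
        rw [hR]; field_simp
      rw [h2, div_mul_eq_mul_div, div_le_iff₀ hD0]
      have h3 := hC y hyL
      have h4 : C ≤ D := by
        rw [hD]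
        linarith [le_max_left C 0]
      gcongr
      linarith
    have h2 : a₀ + ι (y + q • w + (q / R) • y) ∈ A := h1
    convert h2 using 1
    rw [map_add, map_add, map_smul, map_smul, smul_add, smul_smul, div_mul_cancel₀ _ hR0.ne', hxy]
    abel
  have h3 := Co.of hK hcn hp
  have h4 : R • ι w + ι y + (p - x) = R • ι w + (p - a₀) := by
    rw [hxy]; abel
  rw [h4] at h3
  exact h3

/-- `b(k)`: every convex body in dimension `k` is covered by at most `b(k)` translates of its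
interior. -/
noncomputable def bnd (k : ℕ) : ℝ :=
  if k ≤ 2 then 2 ^ k else 3 * 2 ^ k * (k * Real.log (2 * k ^ 2 + 2 * k + 1))

theorem cov_bnd {k : ℕ} {L : Set (Eu k)} (hL : Bdy L) : ∃ N : ℕ, (N : ℝ) ≤ bnd k ∧ Cov L N := by
  unfold bnd
  split_ifs with h
  · exact ⟨2 ^ k, by push_cast; exact le_rfl, body_le_two h hL⟩
  · obtain ⟨T, h1, h2⟩ := Pool.Agent.Results.MP_eba1ef_gt.AllConvexBodies.result k (by omega) L
      hL.1 hL.2.1 hL.2.2
    exact ⟨T.card, h2, T, le_rfl, h1⟩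

end Pool.Agent.X163.Hull
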