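import Pool.Agent.Results.MP_a15589_al.Asymptotic

/-!
# Blocks of `G × A` for a cyclic `p`-group `A`
-/

set_option autoImplicit false

open Finset hiding box

namespace Pool.Agent.X163.KB

open Pool.Agent.X27.Blk (box IsBlock i1 i2 box_mul box_central coeff_box of_pair isBlock_box)
open Pool.Agent.Results.MP_a15589_al.Asymptotic

variable {k : Type} [Field k]

section one
variable {A : Type} [CommGroup A]

theorem pow_const {p n : ℕ} (hp : p.Prime) [CharP k p] (hA : ∀ a : A, a ^ p ^ n = 1)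
    (f : MonoidAlgebra k A) : ∃ c : k, f ^ p ^ n = algebraMap k (MonoidAlgebra k A) c := by
  have : Fact p.Prime := ⟨hp⟩
  have hc : CharP (MonoidAlgebra k A) p :=
    charP_of_injective_algebraMap (algebraMap k (MonoidAlgebra k A)).injective p
  induction f using MonoidAlgebra.induction_linear with
  | zero => exact ⟨0, by rw [map_zero, zero_pow (pow_ne_zero _ hp.ne_zero)]⟩
  | add x y hx hy =>
    obtain ⟨a, ha⟩ := hx
    obtain ⟨b, hb⟩ := hy
    exact ⟨a + b, by rw [add_pow_char_pow, ha, hb, map_add]⟩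
  | single g r =>
    refine ⟨r ^ p ^ n, ?_⟩
    rw [MonoidAlgebra.single_pow, hA]
    rfl

theorem isBlock_one {p n : ℕ} (hp : p.Prime) [CharP k p] (hA : ∀ a : A, a ^ p ^ n = 1) :
    IsBlock (1 : MonoidAlgebra k A) := by
  refine ⟨IsIdempotentElem.one, fun x => by rw [mul_one, one_mul], one_ne_zero, fun f hf _ => ?_⟩
  rw [mul_one]
  obtain ⟨c, hc⟩ := pow_const hp hA f
  have h1 : f ^ p ^ n = f := hf.pow_eq (pow_ne_zero _ hp.ne_zero)
  rw [h1] at hc
  have h2 : c * c = c := by
    apply (algebraMap k (MonoidAlgebra k A)).injective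
    rw [map_mul, ← hc]
    exact hf
  have h3 : c = 0 ∨ c = 1 := by
    by_cases h0 : c = 0
    · exact Or.inl h0
    · exact Or.inr (mul_left_cancel₀ h0 (by rw [h2, mul_one]))
  rcases h3 with h | h
  · exact Or.inl (by rw [hc, h, map_zero])
  · exact Or.inr (by rw [hc, h, map_one])

theorem kB_one [Finite A] : kB (1 : MonoidAlgebra k A) = Nat.card A := by
  have := Fintype.ofFinite A
  unfold kB
  have h1 : Submodule.map (LinearMap.mulRight k (1 : MonoidAlgebra k A))
      (Subalgebra.toSubmodule (Subalgebra.center k (MonoidAlgebra k A))) = ⊤ := by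
    rw [eq_top_iff]
    intro x _
    refine ⟨x, ?_, ?_⟩
    · show x ∈ Subalgebra.center k (MonoidAlgebra k A)
      rw [Subalgebra.mem_center_iff]
      intro y
      exact mul_comm y x
    · show x * 1 = x
      rw [mul_one]
  rw [h1, finrank_top, LinearEquiv.finrank_eq (MonoidAlgebra.coeffLinearEquiv k),
    Module.finrank_finsupp_self, Nat.card_eq_fintype_card]

theorem inTrace_one : InTrace (1 : MonoidAlgebra k A) (⊤ : Subgroup A) := by
  refine ⟨1, fun q _ => by rw [mul_one, one_mul], ?_⟩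
  have h1 : ∀ x : A ⧸ (⊤ : Subgroup A), MonoidAlgebra.of k A (Quotient.out x) * 1 *
      MonoidAlgebra.of k A (Quotient.out x)⁻¹ = 1 := by
    intro x
    rw [mul_one, ← map_mul, mul_inv_cancel, map_one]
  simp only [h1]
  have hs : Subsingleton (A ⧸ (⊤ : Subgroup A)) := QuotientGroup.subsingleton_quotient_top
  have : Unique (A ⧸ (⊤ : Subgroup A)) := uniqueOfSubsingleton ((1 : A) : A ⧸ (⊤ : Subgroup A))
  rw [finsum_unique]

end one

section cyc
variable [IsAlgClosed k]

theorem mz_pow (p n : ℕ) (a : Multiplicative (ZMod (p ^ n))) : a ^ p ^ n = 1 := by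
  apply Multiplicative.toAdd.injective
  rw [toAdd_pow, toAdd_one, nsmul_eq_mul, ZMod.natCast_self, zero_mul]

/-- The block `B ⊗ kA` of `G × A`, where `A` is cyclic of order `p ^ n`. -/
noncomputable def cyc (p : ℕ) [hp : Fact p.Prime] [CharP k p] (n : ℕ) (b : Blk k) : Blk k :=
  have : NeZero (p ^ n) := ⟨pow_ne_zero _ hp.out.ne_zero⟩
  ⟨b.G × Multiplicative (ZMod (p ^ n)), box b.e 1, isBlock_box b.isBlock (isBlock_one hp.out (mz_pow p n))⟩

theorem card_mz (p n : ℕ) [hp : Fact p.Prime] : Nat.card (Multiplicative (ZMod (p ^ n))) = p ^ n := by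
  rw [Nat.card_congr Multiplicative.toAdd, Nat.card_zmod]

theorem kB_cyc (p : ℕ) [hp : Fact p.Prime] [CharP k p] (n : ℕ) (b : Blk k) :
    kB b.e * p ^ n ≤ kB (cyc p n b).e := by
  have : NeZero (p ^ n) := ⟨pow_ne_zero _ hp.out.ne_zero⟩
  have h1 := kB_box b.e (1 : MonoidAlgebra k (Multiplicative (ZMod (p ^ n))))
  rw [kB_one, card_mz] at h1
  exact h1

theorem defect_cyc (p : ℕ) [hp : Fact p.Prime] [CharP k p] (n : ℕ) (b : Blk k) (D : Subgroup b.G)
    (hD : InTrace b.e D) :
    ∃ E : Subgroup (cyc p n b).G, IsDefect (cyc p n b).e E ∧ Nat.card E ≤ Nat.card D * p ^ n := by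
  have : NeZero (p ^ n) := ⟨pow_ne_zero _ hp.out.ne_zero⟩
  have h1 : InTrace (box b.e (1 : MonoidAlgebra k (Multiplicative (ZMod (p ^ n)))))
      (D.prod ⊤) := inTrace_box hD inTrace_one
  obtain ⟨E, h2, h3⟩ := exists_defect h1
  refine ⟨E, h2, h3.trans ?_⟩
  rw [Nat.card_congr (Subgroup.prodEquiv D ⊤).toEquiv, Nat.card_prod, Subgroup.card_top, card_mz]

end cyc

theorem general [IsAlgClosed k] (p : ℕ) [hp : Fact p.Prime] [CharP k p] (P : Blk k → Prop)
    (hP : ∀ b, P b → ∀ n : ℕ, P (cyc p n b)) (c : ℝ) (hc : 0 ≤ c) :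
    (∀ b : Blk k, P b → ∀ D : Subgroup b.G, IsDefect b.e D → (kB b.e : ℝ) ≤ c * Nat.card D) ↔
    ∀ ε : ℝ, 0 < ε → ∃ C : ℝ, ∀ b : Blk k, P b → ∀ D : Subgroup b.G, IsDefect b.e D →
      (kB b.e : ℝ) ≤ (c + ε) * Nat.card D + C := by
  constructor
  · intro h ε hε
    refine ⟨0, fun b hb D hD => (h b hb D hD).trans ?_⟩
    have h1 : (0 : ℝ) ≤ ε * Nat.card D := by positivity
    rw [add_mul, add_zero]
    linarith
  · intro h b hb D hD
    have hd : (0 : ℝ) < Nat.card D := by exact_mod_cast Nat.card_pos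
    by_contra hlt
    push Not at hlt
    set δ : ℝ := kB b.e - c * Nat.card D with hδ
    have hδ0 : 0 < δ := by rw [hδ]; linarith
    have hpos : 0 ≤ c + δ / (2 * Nat.card D) := by positivity
    have hk : (c + δ / (2 * Nat.card D)) * Nat.card D = (kB b.e : ℝ) - δ / 2 := by
      rw [add_mul]
      have h1 : δ / (2 * (Nat.card D : ℝ)) * Nat.card D = δ / 2 := by
        field_simp
      rw [h1, hδ]
      ring
    obtain ⟨C, hC⟩ := h (δ / (2 * Nat.card D)) (by positivity)
    have key : ∀ n : ℕ, δ / 2 * (p : ℝ) ^ n ≤ C := by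
      intro n
      obtain ⟨E, hE, hE2⟩ := defect_cyc p n b D hD.1
      have h1 := hC _ (hP b hb n) E hE
      have h2 : (kB b.e : ℝ) * (p : ℝ) ^ n ≤ kB (cyc p n b).e := by
        exact_mod_cast kB_cyc p n b
      have h3 : (Nat.card E : ℝ) ≤ Nat.card D * (p : ℝ) ^ n := by exact_mod_cast hE2
      have h4 : (c + δ / (2 * Nat.card D)) * Nat.card E ≤
          (c + δ / (2 * Nat.card D)) * (Nat.card D * (p : ℝ) ^ n) :=
        mul_le_mul_of_nonneg_left h3 hpos
      rw [← mul_assoc, hk] at h4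
      nlinarith
    obtain ⟨n, hn⟩ := pow_unbounded_of_one_lt (C / (δ / 2)) (by exact_mod_cast hp.out.one_lt :
      (1 : ℝ) < p)
    have h1 := key n
    rw [div_lt_iff₀ (by positivity)] at hn
    linarith

end Pool.Agent.X163.KB
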