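import Pool.Agent.X163.KB

/-!
# Blocks of `G × A` for an abelian group `A` of order prime to `p`, and the number of blocks with large `k(B)`
-/

set_option autoImplicit false

open Finset hiding box

namespace Pool.Agent.X163.KB

open Pool.Agent.X27.Blk (box IsBlock i1 i2 box_mul box_central coeff_box of_pair isBlock_box)
open Pool.Agent.Results.MP_a15589_al.Asymptotic

variable {k : Type} [Field k]

theorem block_orth {G : Type} [Group G] {e f : MonoidAlgebra k G} (he : IsBlock e) (hf : IsBlock f)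
    (h : e ≠ f) : e * f = 0 := by
  rcases hf.2.2.2 e he.1 he.2.1 with h1 | h1
  · exact h1
  · rcases he.2.2.2 f hf.1 hf.2.1 with h2 | h2
    · rw [← h2]
      exact (hf.2.1 e)
    · exact absurd (by rw [← h2, ← hf.2.1 e, h1]) h

theorem blocks_finite (k : Type) [Field k] (G : Type) [Group G] [Finite G] :
    {e : MonoidAlgebra k G | IsBlock e}.Finite := by
  have hfd : FiniteDimensional k (MonoidAlgebra k G) :=
    Module.Finite.equiv (MonoidAlgebra.coeffLinearEquiv k).symm
  have hli : LinearIndependent k (fun e : {e : MonoidAlgebra k G | IsBlock e} => (e : MonoidAlgebra k G)) := by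
    rw [linearIndependent_iff']
    intro s c hc i hi
    have h1 := congrArg (fun x => x * (i : MonoidAlgebra k G)) hc
    simp only [zero_mul, Finset.sum_mul] at h1
    rw [Finset.sum_eq_single i] at h1
    · rw [smul_mul_assoc, i.2.1.eq] at h1
      exact (smul_eq_zero.1 h1).resolve_right i.2.2.2.1
    · intro j _ hj
      rw [smul_mul_assoc, block_orth j.2 i.2 (fun h => hj (Subtype.ext h)), smul_zero]
    · intro h
      exact absurd hi h
  exact hli.set_finite_of_isNoetherian

section ab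
variable {A : Type} [CommGroup A] [Fintype A]

/-- The block of `k A` which belongs to the linear character `chi`. -/
noncomputable def fc (chi : A →* kˣ) : MonoidAlgebra k A :=
  ∑ a : A, MonoidAlgebra.single a ((Fintype.card A : k)⁻¹ * ((chi a⁻¹ : kˣ) : k))

theorem coeff_fc (chi : A →* kˣ) (a : A) :
    (fc chi).coeff a = (Fintype.card A : k)⁻¹ * ((chi a⁻¹ : kˣ) : k) := by
  classical
  unfold fc
  rw [MonoidAlgebra.coeff_sum, Finsupp.finsetSum_apply]
  simp only [MonoidAlgebra.coeff_single, Finsupp.single_apply]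
  rw [Finset.sum_ite_eq' Finset.univ a]
  simp

theorem single_fc (chi : A →* kˣ) (b : A) (r : k) :
    MonoidAlgebra.single b r * fc chi = (r * ((chi b : kˣ) : k)) • fc chi := by
  ext a
  rw [MonoidAlgebra.coeff_single_mul_apply, MonoidAlgebra.coeff_smul_apply, coeff_fc, coeff_fc, smul_eq_mul]
  have h1 : (b⁻¹ * a)⁻¹ = b * a⁻¹ := by rw [mul_inv_rev, inv_inv, mul_comm]
  rw [h1, map_mul, Units.val_mul]
  ring

theorem mul_fc (chi : A →* kˣ) (h : MonoidAlgebra k A) : ∃ c : k, h * fc chi = c • fc chi := by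
  induction h using MonoidAlgebra.induction_linear with
  | zero => exact ⟨0, by rw [zero_mul, zero_smul]⟩
  | add x y hx hy =>
    obtain ⟨a, ha⟩ := hx
    obtain ⟨b, hb⟩ := hy
    exact ⟨a + b, by rw [add_mul, ha, hb, add_smul]⟩
  | single g r => exact ⟨_, single_fc chi g r⟩

theorem fc_idem (hA : (Fintype.card A : k) ≠ 0) (chi : A →* kˣ) : IsIdempotentElem (fc chi) := by
  change fc chi * fc chi = fc chi
  have h1 : fc chi * fc chi = ∑ a : A, MonoidAlgebra.single a ((Fintype.card A : k)⁻¹ * ((chi a⁻¹ : kˣ) : k)) *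
      fc chi := by
    rw [← Finset.sum_mul]
    rfl
  rw [h1]
  have h2 : ∀ a : A, MonoidAlgebra.single a ((Fintype.card A : k)⁻¹ * ((chi a⁻¹ : kˣ) : k)) * fc chi =
      (Fintype.card A : k)⁻¹ • fc chi := by
    intro a
    rw [single_fc, mul_assoc, ← Units.val_mul, ← map_mul, inv_mul_cancel, map_one, Units.val_one, mul_one]
  simp only [h2]
  rw [Finset.sum_const, Finset.card_univ, ← Nat.cast_smul_eq_nsmul k, smul_smul, mul_inv_cancel₀ hA, one_smul]

theorem fc_ne (hA : (Fintype.card A : k) ≠ 0) (chi : A →* kˣ) : fc chi ≠ 0 := by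
  intro h
  have h1 := coeff_fc chi 1
  rw [h, inv_one, chi.map_one, Units.val_one, mul_one] at h1
  exact inv_ne_zero hA h1.symm

theorem fc_block (hA : (Fintype.card A : k) ≠ 0) (chi : A →* kˣ) : IsBlock (fc chi) := by
  refine ⟨fc_idem hA chi, fun x => mul_comm _ _, fc_ne hA chi, fun f hf _ => ?_⟩
  obtain ⟨c, hc⟩ := mul_fc chi f
  have h1 : (f * fc chi) * (f * fc chi) = f * fc chi := by
    calc (f * fc chi) * (f * fc chi) = (f * f) * (fc chi * fc chi) := by ring
      _ = f * fc chi := by rw [hf.eq, (fc_idem hA chi).eq]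
  rw [hc, smul_mul_smul_comm, (fc_idem hA chi).eq] at h1
  have h2 : (c * c - c) • fc chi = 0 := by rw [sub_smul, h1, sub_self]
  have h3 : c * c - c = 0 := (smul_eq_zero.1 h2).resolve_right (fc_ne hA chi)
  have h4 : c * (c - 1) = 0 := by
    rw [← h3]
    ring
  rcases mul_eq_zero.1 h4 with h | h
  · exact Or.inl (by rw [hc, h, zero_smul])
  · exact Or.inr (by rw [hc, sub_eq_zero.1 h, one_smul])

theorem fc_trace (hA : (Fintype.card A : k) ≠ 0) (chi : A →* kˣ) : InTrace (fc chi) (⊥ : Subgroup A) := by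
  refine ⟨(Fintype.card A : k)⁻¹ • fc chi, fun q _ => mul_comm _ _, ?_⟩
  have hft : Fintype (A ⧸ (⊥ : Subgroup A)) := Fintype.ofFinite _
  have h1 : ∀ x : A ⧸ (⊥ : Subgroup A), MonoidAlgebra.of k A (Quotient.out x) *
      ((Fintype.card A : k)⁻¹ • fc chi) * MonoidAlgebra.of k A (Quotient.out x)⁻¹ =
        (Fintype.card A : k)⁻¹ • fc chi := by
    intro x
    rw [mul_comm (MonoidAlgebra.of k A (Quotient.out x)), mul_assoc, ← map_mul, mul_inv_cancel, map_one, mul_one]
  simp only [h1]
  rw [finsum_eq_sum_of_fintype, Finset.sum_const, Finset.card_univ]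
  have h2 : Fintype.card (A ⧸ (⊥ : Subgroup A)) = Fintype.card A := by
    have h3 : Nat.card (A ⧸ (⊥ : Subgroup A)) = Nat.card A := by
      rw [← Subgroup.index_eq_card, Subgroup.index_bot]
    rwa [Nat.card_eq_fintype_card, Nat.card_eq_fintype_card] at h3
  rw [h2, ← Nat.cast_smul_eq_nsmul k, smul_smul, mul_inv_cancel₀ hA, one_smul]

theorem kB_pos {G : Type} [Group G] [Finite G] {e : MonoidAlgebra k G} (he : e ≠ 0) : 0 < kB e := by
  have hfd : FiniteDimensional k (MonoidAlgebra k G) :=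
    Module.Finite.equiv (MonoidAlgebra.coeffLinearEquiv k).symm
  unfold kB
  rw [Module.finrank_pos_iff_exists_ne_zero]
  refine ⟨⟨e, 1, ?_, ?_⟩, ?_⟩
  · show (1 : MonoidAlgebra k G) ∈ Subalgebra.center k (MonoidAlgebra k G)
    exact Subalgebra.one_mem _
  · show 1 * e = e
    rw [one_mul]
  · intro h
    exact he (congrArg Subtype.val h)

end ab

/-- A finite group. -/
structure Gp where
  G : Type
  [grp : Group G]
  [fin : Finite G]

attribute [instance] Gp.grp Gp.fin

/-- The direct product with the cyclic group of order `q`. -/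
def Gp.mul (x : Gp) (q : ℕ) [NeZero q] : Gp where
  G := x.G × Multiplicative (ZMod q)

/-- The blocks `B` of `k G` with defect groups `D` of order at most `d` and `k(B) > c |D|`. -/
def BadK (k : Type) [Field k] (c : ℝ) (d : ℕ) (x : Gp) : Set (MonoidAlgebra k x.G) :=
  {e | IsBlock e ∧ ∃ D : Subgroup x.G, IsDefect e D ∧ Nat.card D ≤ d ∧ c * Nat.card D < kB e}

/-- Their number. -/
noncomputable def badK (k : Type) [Field k] (c : ℝ) (d : ℕ) (x : Gp) : ℕ := Nat.card (BadK k c d x)

theorem badK_finite (c : ℝ) (d : ℕ) (x : Gp) : (BadK k c d x).Finite :=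
  (blocks_finite k x.G).subset fun _ h => h.1

theorem badK_mul [IsAlgClosed k] (c : ℝ) (hc : 0 ≤ c) (d q : ℕ) [NeZero q] (hq : (q : k) ≠ 0) (x : Gp) :
    badK k c d x * q ≤ badK k c d (x.mul q) := by
  have hA : (Fintype.card (Multiplicative (ZMod q)) : k) ≠ 0 := by
    rw [← Nat.card_eq_fintype_card, Nat.card_congr Multiplicative.toAdd, Nat.card_zmod]
    exact hq
  have hcard : Nat.card (Multiplicative (ZMod q) →* kˣ) = q := by
    have hexp : Monoid.exponent (Multiplicative (ZMod q)) = q := by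
      rw [IsCyclic.exponent_eq_card, Nat.card_congr Multiplicative.toAdd, Nat.card_zmod]
    have hne : NeZero ((Monoid.exponent (Multiplicative (ZMod q)) : ℕ) : k) := ⟨by rw [hexp]; exact hq⟩
    rw [CommGroup.card_monoidHom_of_hasEnoughRootsOfUnity, Nat.card_congr Multiplicative.toAdd, Nat.card_zmod]
  have hfin : Finite (BadK k c d (x.mul q)) := badK_finite c d (x.mul q)
  have hmem : ∀ (e : BadK k c d x) (chi : Multiplicative (ZMod q) →* kˣ),
      box (e : MonoidAlgebra k x.G) (fc chi) ∈ BadK k c d (x.mul q) := by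
    intro e chi
    obtain ⟨he, D, hD, hd, hk⟩ := e.2
    refine ⟨isBlock_box he (fc_block hA chi), ?_⟩
    obtain ⟨E, hE, hE2⟩ := exists_defect (inTrace_box hD.1 (fc_trace hA chi))
    have h1 : Nat.card (D.prod (⊥ : Subgroup (Multiplicative (ZMod q)))) = Nat.card D := by
      rw [Nat.card_congr (Subgroup.prodEquiv D ⊥).toEquiv, Nat.card_prod, Subgroup.card_bot, mul_one]
    rw [h1] at hE2
    refine ⟨E, hE, hE2.trans hd, ?_⟩
    have h2 := kB_box (e : MonoidAlgebra k x.G) (fc chi)
    have h3 : 1 ≤ kB (fc chi) := kB_pos (fc_ne hA chi)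
    have h4 : kB (e : MonoidAlgebra k x.G) ≤ kB (box (e : MonoidAlgebra k x.G) (fc chi)) :=
      (Nat.le_mul_of_pos_right _ h3).trans h2
    calc c * Nat.card E ≤ c * Nat.card D := mul_le_mul_of_nonneg_left (by exact_mod_cast hE2) hc
      _ < kB (e : MonoidAlgebra k x.G) := hk
      _ ≤ kB (box (e : MonoidAlgebra k x.G) (fc chi)) := by exact_mod_cast h4
  have hinj : Function.Injective (fun z : BadK k c d x × (Multiplicative (ZMod q) →* kˣ) =>
      (⟨box (z.1 : MonoidAlgebra k x.G) (fc z.2), hmem z.1 z.2⟩ : BadK k c d (x.mul q))) := by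
    rintro ⟨e, chi⟩ ⟨e', chi'⟩ h
    have h1 : box (e : MonoidAlgebra k x.G) (fc chi) = box (e' : MonoidAlgebra k x.G) (fc chi') :=
      congrArg Subtype.val h
    have h2 : ∀ (g : x.G) (a : Multiplicative (ZMod q)), (e : MonoidAlgebra k x.G).coeff g * (fc chi).coeff a =
        (e' : MonoidAlgebra k x.G).coeff g * (fc chi').coeff a := by
      intro g a
      rw [← coeff_box, ← coeff_box, h1]
    have h3 : (e : MonoidAlgebra k x.G) = e' := by
      ext g
      have h4 := h2 g 1
      rw [coeff_fc, coeff_fc, inv_one, chi.map_one, chi'.map_one] at h4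
      exact mul_right_cancel₀ (mul_ne_zero (inv_ne_zero hA) (by simp)) h4
    obtain ⟨g, hg⟩ : ∃ g, (e : MonoidAlgebra k x.G).coeff g ≠ 0 := by
      by_contra hno
      push Not at hno
      exact e.2.1.2.2.1 (by ext g; exact hno g)
    have h5 : chi = chi' := by
      refine MonoidHom.ext fun a => Units.ext ?_
      have h6 := h2 g a⁻¹
      rw [← h3] at h6
      have h7 := mul_left_cancel₀ hg h6
      rw [coeff_fc, coeff_fc, inv_inv] at h7
      exact mul_left_cancel₀ (inv_ne_zero hA) h7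
    rw [h5, Subtype.ext h3]
  have h1 := Nat.card_le_card_of_injective _ hinj
  rw [Nat.card_prod, hcard] at h1
  exact h1

theorem card_gmul (x : Gp) (q : ℕ) [NeZero q] : Nat.card (x.mul q).G = Nat.card x.G * q := by
  change Nat.card (x.G × Multiplicative (ZMod q)) = _
  rw [Nat.card_prod, Nat.card_congr Multiplicative.toAdd, Nat.card_zmod]

theorem powersK [IsAlgClosed k] (c : ℝ) (hc : 0 ≤ c) (d q : ℕ) [NeZero q] (hq : (q : k) ≠ 0)
    (P : Gp → Prop) (hP : ∀ x, P x → P (x.mul q)) (x : Gp) (hx : P x) (n : ℕ) :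
    ∃ y : Gp, P y ∧ Nat.card y.G = Nat.card x.G * q ^ n ∧ badK k c d x * q ^ n ≤ badK k c d y := by
  induction n with
  | zero => exact ⟨x, hx, by simp, by simp⟩
  | succ n ih =>
    obtain ⟨y, h1, h2, h4⟩ := ih
    refine ⟨y.mul q, hP y h1, ?_, ?_⟩
    · rw [card_gmul, h2, mul_assoc, pow_succ]
    · refine le_trans ?_ (badK_mul c hc d q hq y)
      rw [pow_succ, ← mul_assoc]
      exact Nat.mul_le_mul_right q h4

/-- **Main theorem.** -/
theorem mainK [IsAlgClosed k] (c : ℝ) (hc : 0 ≤ c) (q : ℕ) (hq1 : 1 < q) (hq : (q : k) ≠ 0) [NeZero q]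
    (P : Gp → Prop) (hP : ∀ x, P x → P (x.mul q)) :
    (∀ x, P x → ∀ e : MonoidAlgebra k x.G, IsBlock e → ∀ D : Subgroup x.G, IsDefect e D →
      (kB e : ℝ) ≤ c * Nat.card D) ↔
    ∀ ε : ℝ, 0 < ε → ∀ d : ℕ, ∃ N : ℕ, ∀ x, P x → N ≤ Nat.card x.G →
      (badK k c d x : ℝ) ≤ ε * Nat.card x.G := by
  constructor
  · intro h ε hε d
    refine ⟨0, fun x hx _ => ?_⟩
    have h1 : badK k c d x = 0 := by
      have : IsEmpty (BadK k c d x) := ⟨fun e => by
        obtain ⟨he, D, hD, _, hk⟩ := e.2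
        exact absurd (h x hx _ he D hD) (not_le.2 hk)⟩
      exact Nat.card_of_isEmpty
    rw [h1, Nat.cast_zero]
    positivity
  · intro h x hx e he D hD
    by_contra hno
    push Not at hno
    have hfin : Finite (BadK k c (Nat.card D) x) := badK_finite c (Nat.card D) x
    have hne : Nonempty (BadK k c (Nat.card D) x) := ⟨⟨e, he, D, hD, le_rfl, hno⟩⟩
    have h0 : 0 < badK k c (Nat.card D) x := Nat.card_pos
    have hG : (0 : ℝ) < Nat.card x.G := by exact_mod_cast Nat.card_pos
    obtain ⟨N, hN⟩ := h (1 / (2 * Nat.card x.G)) (by positivity) (Nat.card D)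
    obtain ⟨y, h1, h2, h4⟩ := powersK c hc (Nat.card D) q hq P hP x hx N
    have h5 := hN y h1 (by
      rw [h2]
      calc N ≤ q ^ N := (Nat.lt_pow_self hq1).le
        _ ≤ Nat.card x.G * q ^ N := Nat.le_mul_of_pos_left _ Nat.card_pos)
    rw [h2] at h5
    have h6 : ((badK k c (Nat.card D) x * q ^ N : ℕ) : ℝ) ≤ (badK k c (Nat.card D) y : ℝ) := by
      exact_mod_cast h4
    push_cast at h5 h6
    have hpos : (0 : ℝ) < (q : ℝ) ^ N := pow_pos (by exact_mod_cast (by omega : 0 < q)) _
    have h7 : 1 / (2 * (Nat.card x.G : ℝ)) * ((Nat.card x.G : ℝ) * (q : ℝ) ^ N) = 1 / 2 * (q : ℝ) ^ N := by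
      field_simp
    rw [h7] at h5
    have h8 : (1 : ℝ) ≤ badK k c (Nat.card D) x := by exact_mod_cast h0
    nlinarith

end Pool.Agent.X163.KB
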