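import Pool.Agent.W677.Summand3

set_option autoImplicit false

/-!
Illumination of convex bodies with a normally subordinate set: the core.
-/

open Set Topology Filter
open scoped Pointwise RealInnerProductSpace
open Pool.Agent.H843R3.Had2 Pool.Agent.W677.Shadow Pool.Agent.W677.Summand

namespace Pool.Agent.X163.Lim

variable {E : Type*} [NormedAddCommGroup E] [InnerProductSpace ℝ E]

/-- `u` is an outer normal vector of `K` at `x` -/
def NormalAt (K : Set E) (x u : E) : Prop := ∀ y ∈ K, ⟪u, y⟫ ≤ ⟪u, x⟫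

/-- all outer normals of `K` at a point are outer normals of `A` at a point -/
def Sub (A K : Set E) : Prop := ∀ x ∈ K, ∃ a ∈ A, ∀ u, NormalAt K x u → NormalAt A a u

theorem sep [FiniteDimensional ℝ E] {K : Set E} (hK : Convex ℝ K) (hKi : (interior K).Nonempty)
    {x v : E} (hx : x ∈ K) (h : ¬ Co K x v) : ∃ u, ‖u‖ = 1 ∧ NormalAt K x u ∧ 0 ≤ ⟪u, v⟫ := by
  have hconv : Convex ℝ ((fun t : ℝ => x + t • v) '' Ioi 0) := by
    rintro _ ⟨s, hs, rfl⟩ _ ⟨t, ht, rfl⟩ p q hp hq hpq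
    refine ⟨p * s + q * t, ?_, ?_⟩
    · rcases hp.eq_or_lt with h0 | h0
      · have : q = 1 := by linarith
        rw [← h0, this]
        simpa using ht
      · have h1 : 0 < p * s := mul_pos h0 hs
        have h2 : 0 ≤ q * t := mul_nonneg hq (le_of_lt ht)
        exact add_pos_of_pos_of_nonneg h1 h2
    · show x + (p * s + q * t) • v = p • (x + s • v) + q • (x + t • v)
      have : x = p • x + q • x := by rw [← add_smul, hpq, one_smul]
      nth_rewrite 1 [this]
      module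
  have hdis : Disjoint (interior K) ((fun t : ℝ => x + t • v) '' Ioi 0) := by
    rw [Set.disjoint_left]
    rintro _ hk ⟨t, ht, rfl⟩
    exact h ⟨t, ht, hk⟩
  obtain ⟨f, c, hf1, hf2⟩ := geometric_hahn_banach_open hK.interior isOpen_interior hconv hdis
  have hx0 : c ≤ f x := by
    have ht : Tendsto (fun t : ℝ => f (x + t • v)) (𝓝[>] 0) (𝓝 (f (x + (0:ℝ) • v))) := by
      apply Tendsto.mono_left _ nhdsWithin_le_nhds
      exact (by fun_prop : Continuous fun t : ℝ => f (x + t • v)).tendsto 0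
    rw [zero_smul, add_zero] at ht
    exact ge_of_tendsto ht (eventually_nhdsWithin_of_forall fun t ht => hf2 _ ⟨t, ht, rfl⟩)
  have hcl : ∀ y ∈ K, f y ≤ c := by
    intro y hy
    have hy' : y ∈ closure (interior K) := by
      rw [hK.closure_interior_eq_closure_of_nonempty_interior hKi]
      exact subset_closure hy
    exact closure_minimal (fun a ha => (hf1 a ha).le)
      (isClosed_le f.continuous continuous_const) hy'
  have hxc : f x = c := le_antisymm (hcl x hx) hx0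
  have hv : 0 ≤ f v := by
    have := hf2 _ ⟨1, show (0:ℝ) < 1 from one_pos, rfl⟩
    simp only [one_smul, map_add] at this
    linarith
  have hf0 : f ≠ 0 := by
    rintro rfl
    obtain ⟨k, hk⟩ := hKi
    have h1 := hf1 k hk
    have h2 : (0 : E →L[ℝ] ℝ) x = c := hxc
    simp only [zero_apply] at h1 h2
    linarith
  set u := (InnerProductSpace.toDual ℝ E).symm f with hu
  have hu1 : ∀ y, ⟪u, y⟫ = f y := fun y => InnerProductSpace.toDual_symm_apply
  have hu0 : u ≠ 0 := by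
    intro h0
    apply hf0
    ext y
    rw [← hu1, h0, inner_zero_left]
    rfl
  refine ⟨‖u‖⁻¹ • u, ?_, ?_, ?_⟩
  · rw [norm_smul, norm_inv, norm_norm, inv_mul_cancel₀ (norm_ne_zero_iff.2 hu0)]
  · intro y hy
    rw [inner_smul_left, inner_smul_left, hu1, hu1]
    exact mul_le_mul_of_nonneg_left ((hcl y hy).trans hx0) (by simp)
  · rw [inner_smul_left, hu1]
    exact mul_nonneg (by simp) hv

/-- a nonzero normal is strict in the interior -/
theorem strict {K : Set E} {x u y : E} (hu : NormalAt K x u) (hu0 : u ≠ 0) (hy : y ∈ interior K) :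
    ⟪u, y⟫ < ⟪u, x⟫ := by
  obtain ⟨ε, hε, h1⟩ := Co.of_interior hy u
  have h2 := hu _ (interior_subset h1)
  rw [inner_add_right, inner_smul_right] at h2
  have h3 : 0 < ⟪u, u⟫ := by
    rw [real_inner_self_eq_norm_sq]
    have := norm_pos_iff.2 hu0
    positivity
  nlinarith

variable {F U : Type*} [NormedAddCommGroup F] [NormedSpace ℝ F] [NormedAddCommGroup U]
  [NormedSpace ℝ U]

/-- **The core.** -/
theorem core [FiniteDimensional ℝ E] {K A : Set E} {a₀ : E} (hK : Convex ℝ K) (hKc : IsCompact K)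
    (hKi : (interior K).Nonempty) (hAc : IsCompact A) (hAK : Sub A K) (ι : U →ₗᵢ[ℝ] E)
    (hιA : ∀ a ∈ A, ∃ y, a = a₀ + ι y)
    (π : E →L[ℝ] F) (s : F → E) (hs : ∀ v, π (s v) = v)
    (he : ∀ y, π y = 0 → ∃ z : U, y = ι z)
    (W : Finset U) (hW : ∀ y ∈ Lset ι A a₀, ∃ w ∈ W, Co (Lset ι A a₀) y w) (V : Finset F)
    (hV : ∀ x ∈ π '' K, ∃ v ∈ V, Co (π '' K) x v) :
    ∃ R : ℝ, ∀ X ∈ K, ∃ w ∈ W, ∃ v ∈ V, Co K X (s v + R • ι w) := by
  by_contra hcon
  push Not at hcon
  have hbad : ∀ i : ℕ, ∃ X ∈ K, ∀ w ∈ W, ∀ v ∈ V, ¬ Co K X (s v + (i : ℝ) • ι w) :=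
    fun i => hcon i
  choose X hX hXb using hbad
  choose a ha haN using fun i => hAK (X i) (hX i)
  obtain ⟨p₀, hp₀⟩ := hKi
  set 𝒰 := Filter.hyperfilter ℕ with h𝒰
  have hlim : ∀ {S : Set E}, IsCompact S → ∀ f : ℕ → E, (∀ i, f i ∈ S) →
      ∃ x ∈ S, Tendsto f 𝒰 (𝓝 x) := by
    intro S hS f hf
    obtain ⟨x, hx, h1⟩ := hS.ultrafilter_le_nhds (𝒰.map f) (by
      rw [Ultrafilter.coe_map, le_principal_iff]
      exact Filter.mem_map.2 (Filter.univ_mem' hf))
    exact ⟨x, hx, h1⟩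
  obtain ⟨x, hx, hXx⟩ := hlim hKc X hX
  obtain ⟨b, hb, hab⟩ := hlim hAc a ha
  obtain ⟨y, hby⟩ := hιA b hb
  have hyL : y ∈ Lset ι A a₀ := by
    show a₀ + ι y ∈ A
    rw [← hby]; exact hb
  obtain ⟨w, hw, ε, hε, hyw⟩ := hW y hyL
  obtain ⟨v, hv, δ, hδ, hxv⟩ := hV (π x) ⟨x, hx, rfl⟩
  choose u hu1 huN hu0 using fun i => sep hK ⟨p₀, hp₀⟩ (hX i) (hXb i w hw v hv)
  obtain ⟨n, hn, hun⟩ := hlim (isCompact_sphere (0 : E) 1) u
    (fun i => mem_sphere_zero_iff_norm.2 (hu1 i))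
  have hn1 : ‖n‖ = 1 := mem_sphere_zero_iff_norm.1 hn
  have hn0 : n ≠ 0 := by
    rw [← norm_pos_iff, hn1]; exact one_pos
  -- the limit is a normal of `K` and of `A`
  have hnK : NormalAt K x n := by
    intro z hz
    exact le_of_tendsto_of_tendsto' (hun.inner tendsto_const_nhds) (hun.inner hXx)
      fun i => huN i z hz
  have hnA : NormalAt A b n := by
    intro z hz
    exact le_of_tendsto_of_tendsto' (hun.inner tendsto_const_nhds) (hun.inner hab)
      fun i => haN i _ (huN i) z hz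
  -- eventually `w` illuminates `a i`
  have hev : ∀ᶠ i in (𝒰 : Filter ℕ), ⟪u i, ι w⟫ ≤ 0 := by
    choose y' hy' using fun i => hιA (a i) (ha i)
    have hyy : Tendsto y' 𝒰 (𝓝 y) := by
      have h1 : Tendsto (fun i => ι (y' i)) 𝒰 (𝓝 (ι y)) := by
        have h2 : ∀ i, ι (y' i) = a i - a₀ := fun i => by rw [hy' i]; abel
        have h3 : ι y = b - a₀ := by rw [hby]; abel
        simp_rw [h2, h3]
        exact hab.sub_const a₀
      exact (ι.isometry.isEmbedding.tendsto_nhds_iff).2 h1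
    have h4 : ∀ᶠ i in (𝒰 : Filter ℕ), y' i + ε • w ∈ interior (Lset ι A a₀) :=
      (hyy.add_const (ε • w)).eventually (isOpen_interior.mem_nhds hyw)
    filter_upwards [h4] with i hi
    have h5' : y' i + ε • w ∈ Lset ι A a₀ := interior_subset hi
    have h5 : a₀ + ι (y' i + ε • w) ∈ A := h5'
    have h6 := haN i _ (huN i) _ h5
    rw [map_add, map_smul, ← add_assoc, ← hy' i, inner_add_right, inner_smul_right] at h6
    by_contra hc
    push Not at hc
    nlinarith
  have hsv : 0 ≤ ⟪n, s v⟫ := by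
    refine ge_of_tendsto (hun.inner (tendsto_const_nhds (x := s v))) ?_
    filter_upwards [hev] with i hi
    have h1 := hu0 i
    rw [inner_add_right, inner_smul_right] at h1
    have : (i : ℝ) * ⟪u i, ι w⟫ ≤ 0 := mul_nonpos_of_nonneg_of_nonpos (Nat.cast_nonneg i) hi
    linarith
  have hιw : 0 ≤ ⟪n, ι w⟫ := by
    have h1 : Tendsto (fun i : ℕ => -‖s v‖ / (i : ℝ)) 𝒰 (𝓝 0) :=
      (tendsto_const_div_atTop_nhds_zero_nat (-‖s v‖)).mono_left
        (Nat.hyperfilter_le_atTop)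
    refine le_of_tendsto_of_tendsto h1 (hun.inner (tendsto_const_nhds (x := ι w))) ?_
    have h2 : ∀ᶠ i : ℕ in (𝒰 : Filter ℕ), 0 < i :=
      Nat.hyperfilter_le_atTop (eventually_gt_atTop 0)
    filter_upwards [h2] with i hi
    have h3 := hu0 i
    rw [inner_add_right, inner_smul_right] at h3
    have h4 : ⟪u i, s v⟫ ≤ ‖s v‖ := by
      calc ⟪u i, s v⟫ ≤ ‖u i‖ * ‖s v‖ := real_inner_le_norm _ _
        _ = ‖s v‖ := by rw [hu1 i, one_mul]
    have hi' : (0 : ℝ) < i := by exact_mod_cast hi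
    rw [div_le_iff₀ hi']
    linarith
  -- `n` is orthogonal to the range of `ι`
  have horth : ∀ z : U, ⟪n, ι z⟫ ≤ 0 := by
    intro z
    by_contra hc
    push Not at hc
    obtain ⟨τ, hτ, h1⟩ := Co.of_interior hyw z
    have h2' : y + ε • w + τ • z ∈ Lset ι A a₀ := interior_subset h1
    have h2 : a₀ + ι (y + ε • w + τ • z) ∈ A := h2'
    have h3 := hnA _ h2
    rw [map_add, map_add, map_smul, map_smul, ← add_assoc, ← add_assoc, ← hby, inner_add_right,
      inner_add_right, inner_smul_right, inner_smul_right] at h3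
    nlinarith
  have horth0 : ∀ z : U, ⟪n, ι z⟫ = 0 := by
    intro z
    refine le_antisymm (horth z) ?_
    have := horth (-z)
    rw [map_neg, inner_neg_right] at this
    linarith
  obtain ⟨Y, hY, hY1⟩ := lift_int hK hp₀ π hxv
  obtain ⟨z, hz⟩ := he (Y - x - δ • s v) (by
    rw [map_sub, map_sub, map_smul, hs, hY1]
    abel)
  have h1 := horth0 z
  rw [← hz, inner_sub_right, inner_sub_right, inner_smul_right] at h1
  have h2 := strict hnK hn0 hY
  nlinarith

/-- `c(K) ≤ c(A) c(Q)` for a set `A` normally subordinate to `K`. -/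
theorem bound [FiniteDimensional ℝ E] {A : Set E} {a₀ : E} {ι : U →ₗᵢ[ℝ] E}
    (hι : ∀ x, x ∈ vectorSpan ℝ A ↔ ∃ u, ι u = x) (ha : a₀ ∈ A)
    (hAc : IsCompact A) {K : Set E} (hK : Convex ℝ K) (hKc : IsCompact K)
    (hKi : (interior K).Nonempty) (hAK : Sub A K) (π : E →L[ℝ] F) (s : F → E)
    (hs : ∀ v, π (s v) = v) (he : ∀ y, π y = 0 → y ∈ vectorSpan ℝ A) (N M : ℕ)
    (hN : Cov (Lset ι A a₀) N) (hM : Cov (π '' K) M) : Cov K (N * M) := by
  classical
  obtain ⟨W, hW, hW1⟩ := dirs_of_cover hN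
  obtain ⟨V, hV, hV1⟩ := dirs_of_cover hM
  obtain ⟨R, hR⟩ := core hK hKc hKi hAc hAK ι (a₀ := a₀) (fun a ha' => by
    obtain ⟨y, hy⟩ := (hι (a - a₀)).1 (vsub_mem_vectorSpan ℝ ha' ha)
    exact ⟨y, by rw [hy]; abel⟩) π s hs (fun y hy => by
    obtain ⟨z, hz⟩ := (hι y).1 (he y hy)
    exact ⟨z, hz.symm⟩) W hW1 V hV1
  obtain ⟨T, hT1, hT2⟩ := cover_of_dirs hK hKc
    ((W ×ˢ V).image (fun p => s p.2 + R • ι p.1)) (by
      intro X hX
      obtain ⟨w, hw, v, hv, h1⟩ := hR X hX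
      exact ⟨_, Finset.mem_image_of_mem _ (Finset.mk_mem_product hw hv), h1⟩)
  refine ⟨T, hT1.trans (Finset.card_image_le.trans ?_), hT2⟩
  rw [Finset.card_product]
  exact Nat.mul_le_mul hW hV

end Pool.Agent.X163.Lim
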