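import Pool.Agent.X163.Lim1

set_option autoImplicit false

/-!
Limits of Minkowski sums of low-dimensional convex sets: a normally subordinate set.
-/

open Set Topology Filter
open scoped Pointwise RealInnerProductSpace
open Pool.Agent.H843R3.Had2 Pool.Agent.W677.Shadow Pool.Agent.W677.Summand

namespace Pool.Agent.X163.Lim

/-- `K` is a limit of finite Minkowski sums of compact convex sets of dimension at most `k`. -/
def IsSumLimit {n : ℕ} (k : ℕ) (K : Set (Eu n)) : Prop :=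
  ∀ ε : ℝ, 0 < ε → ∃ (m : ℕ) (A : Fin m → Set (Eu n)),
    (∀ i, Convex ℝ (A i) ∧ IsCompact (A i) ∧ (A i).Nonempty ∧
      Module.finrank ℝ (vectorSpan ℝ (A i)) ≤ k) ∧
    K ⊆ (∑ i, A i) + Metric.closedBall 0 ε ∧ (∑ i, A i) ⊆ K + Metric.closedBall 0 ε

variable {n : ℕ}

theorem diam_pts {A : Set (Eu n)} (hA : IsCompact A) (hne : A.Nonempty) :
    ∃ p ∈ A, ∃ q ∈ A, ∀ a ∈ A, ∀ b ∈ A, ‖a - b‖ ≤ ‖p - q‖ := by
  have hf : Continuous (fun z : Eu n × Eu n => ‖z.1 - z.2‖) := by fun_prop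
  obtain ⟨z, hz, h⟩ := (hA.prod hA).exists_isMaxOn (hne.prod hne) hf.continuousOn
  rw [isMaxOn_iff] at h
  exact ⟨z.1, hz.1, z.2, hz.2, fun a ha b hb => h (a, b) (Set.mk_mem_prod ha hb)⟩

/-- Approximation. -/
theorem approx {k : ℕ} {K : Set (Eu n)} (hK : IsSumLimit k K) {P Q : Eu n} (hP : P ∈ K)
    (hQ : Q ∈ K) (hPQ : P ≠ Q) (ε : ℝ) (hε : 0 < ε) :
    ∃ C : Set (Eu n), Convex ℝ C ∧ C ⊆ Metric.closedBall 0 1 ∧
      Module.finrank ℝ (vectorSpan ℝ C) ≤ k ∧ (∃ c ∈ C, ∃ c' ∈ C, ‖c - c'‖ = 1) ∧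
      ∀ x ∈ K, ∃ c ∈ C, ∀ u : Eu n, ‖u‖ = 1 → NormalAt K x u → ∀ b ∈ C, ⟪u, b⟫ ≤ ⟪u, c⟫ + ε := by
  classical
  obtain ⟨t, ht, htc⟩ := Metric.totallyBounded_iff.1
    (isCompact_closedBall (0 : Eu n) 1).totallyBounded (ε / 5) (by positivity)
  set F0 : Finset (Eu n) := ht.toFinset with hF0
  have hnet : ∀ a : Eu n, ‖a‖ ≤ 1 → ∃ y ∈ F0, ‖a - y‖ < ε / 5 := by
    intro a ha
    have h1 := htc (mem_closedBall_zero_iff.2 ha)
    obtain ⟨y, hy, h2⟩ := Set.mem_iUnion₂.1 h1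
    exact ⟨y, by simpa [hF0] using hy, by rwa [Metric.mem_ball, dist_eq_norm] at h2⟩
  set cl : Set (Eu n) → Finset (Eu n) := fun S => F0.filter (fun y => ∃ a ∈ S, ‖a - y‖ < ε / 5)
    with hcl
  have hclose : ∀ S S' : Set (Eu n), (∀ a ∈ S, ‖a‖ ≤ 1) → cl S = cl S' → ∀ a ∈ S, ∃ c ∈ S',
      ‖a - c‖ ≤ 2 * (ε / 5) := by
    intro S S' hS h a ha
    obtain ⟨y, hy, h1⟩ := hnet a (hS a ha)
    have h2 : y ∈ cl S := by
      rw [hcl]
      exact Finset.mem_filter.2 ⟨hy, a, ha, h1⟩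
    rw [h] at h2
    obtain ⟨c, hc, h3⟩ := (Finset.mem_filter.1 h2).2
    refine ⟨c, hc, ?_⟩
    calc ‖a - c‖ = ‖(a - y) - (c - y)‖ := by congr 1; abel
      _ ≤ ‖a - y‖ + ‖c - y‖ := norm_sub_le _ _
      _ ≤ 2 * (ε / 5) := by linarith
  set N : ℝ := (F0.powerset.card : ℝ) with hN
  have hN1 : 1 ≤ N := by
    have : 0 < F0.powerset.card := Finset.card_pos.2 ⟨∅, Finset.mem_powerset.2 (Finset.empty_subset _)⟩
    rw [hN]
    exact_mod_cast this
  set D : ℝ := ‖P - Q‖ with hD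
  have hD0 : 0 < D := norm_pos_iff.2 (sub_ne_zero.2 hPQ)
  set η : ℝ := min (D / 4) (ε / 5 * (D / (4 * N))) with hη
  have hη0 : 0 < η := lt_min (by positivity) (by positivity)
  have hη1 : η ≤ D / 4 := min_le_left _ _
  have hη2 : η ≤ ε / 5 * (D / (4 * N)) := min_le_right _ _
  obtain ⟨m, A, hA, hKA, hAK⟩ := hK η hη0
  choose p hp q hq hpq using fun j => diam_pts (hA j).2.1 (hA j).2.2.1
  set r : Fin m → ℝ := fun j => ‖p j - q j‖ with hr
  have hr0 : ∀ j, 0 ≤ r j := fun j => norm_nonneg _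
  -- the sum of the diameters
  have hsum : D / 2 ≤ ∑ j, r j := by
    obtain ⟨y, hy, e, he, hye⟩ := hKA hP
    obtain ⟨y', hy', e', he', hye'⟩ := hKA hQ
    obtain ⟨a, ha, hay⟩ := (Set.mem_fintype_sum A y).1 hy
    obtain ⟨b, hb, hby⟩ := (Set.mem_fintype_sum A y').1 hy'
    rw [mem_closedBall_zero_iff] at he he'
    have h1 : P - Q = (∑ j, (a j - b j)) + (e - e') := by
      rw [Finset.sum_sub_distrib, hay, hby, ← hye, ← hye']
      simp only
      abel
    have h2 : D ≤ ∑ j, r j + 2 * η := by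
      rw [hD, h1]
      calc ‖(∑ j, (a j - b j)) + (e - e')‖ ≤ ‖∑ j, (a j - b j)‖ + ‖e - e'‖ := norm_add_le _ _
        _ ≤ ∑ j, ‖a j - b j‖ + (‖e‖ + ‖e'‖) := add_le_add (norm_sum_le _ _) (norm_sub_le _ _)
        _ ≤ ∑ j, r j + 2 * η := by
            refine add_le_add (Finset.sum_le_sum fun j _ => hpq j _ (ha j) _ (hb j)) ?_
            linarith
    linarith
  set J : Finset (Fin m) := Finset.univ.filter (fun j => 0 < r j) with hJ
  have hsumJ : ∑ j ∈ J, r j = ∑ j, r j := by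
    rw [hJ, Finset.sum_filter]
    refine Finset.sum_congr rfl fun j _ => ?_
    split_ifs with h
    · rfl
    · exact le_antisymm (hr0 j) (not_lt.1 h) |>.symm ▸ rfl
  -- the normalized sets
  set Ah : Fin m → Set (Eu n) := fun j => (fun a => (r j)⁻¹ • (a - p j)) '' A j with hAh
  have hAh1 : ∀ j ∈ J, ∀ a ∈ Ah j, ‖a‖ ≤ 1 := by
    rintro j hj _ ⟨a, ha, rfl⟩
    have hrj : 0 < r j := (Finset.mem_filter.1 hj).2
    rw [norm_smul, norm_inv, Real.norm_of_nonneg hrj.le, inv_mul_le_iff₀ hrj, mul_one]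
    exact hpq j a ha _ (hp j)
  obtain ⟨l, hl, hρ⟩ : ∃ l ∈ F0.powerset, D / (2 * N) ≤ ∑ j ∈ J.filter (fun j => cl (Ah j) = l), r j := by
    by_contra hcon
    push Not at hcon
    have h1 : ∑ j ∈ J, r j = ∑ l ∈ F0.powerset, ∑ j ∈ J.filter (fun j => cl (Ah j) = l), r j := by
      rw [Finset.sum_fiberwise_of_maps_to]
      intro j _
      exact Finset.mem_powerset.2 (Finset.filter_subset _ _)
    have h2 : ∑ l ∈ F0.powerset, ∑ j ∈ J.filter (fun j => cl (Ah j) = l), r j <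
        ∑ l ∈ F0.powerset, D / (2 * N) := by
      refine Finset.sum_lt_sum_of_nonempty ⟨∅, Finset.mem_powerset.2 (Finset.empty_subset _)⟩ hcon
    rw [← h1, hsumJ, Finset.sum_const, nsmul_eq_mul, ← hN] at h2
    have h3 : N * (D / (2 * N)) = D / 2 := by
      field_simp
    rw [h3] at h2
    linarith
  set G : Finset (Fin m) := J.filter (fun j => cl (Ah j) = l) with hG
  set ρ : ℝ := ∑ j ∈ G, r j with hρdef
  have hρ0 : 0 < ρ := lt_of_lt_of_le (by positivity) hρ
  obtain ⟨j₀, hj₀⟩ : G.Nonempty := by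
    by_contra hc
    rw [Finset.not_nonempty_iff_eq_empty] at hc
    rw [hρdef, hc, Finset.sum_empty] at hρ0
    exact lt_irrefl _ hρ0
  have hGJ : ∀ j ∈ G, j ∈ J := fun j hj => (Finset.mem_filter.1 hj).1
  have hGl : ∀ j ∈ G, cl (Ah j) = l := fun j hj => (Finset.mem_filter.1 hj).2
  have hGr : ∀ j ∈ G, 0 < r j := fun j hj => (Finset.mem_filter.1 (hGJ j hj)).2
  set C : Set (Eu n) := Ah j₀ with hC
  have hCconv : Convex ℝ C := by
    rintro _ ⟨a, ha, rfl⟩ _ ⟨b, hb, rfl⟩ s t hs ht hst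
    refine ⟨s • a + t • b, (hA j₀).1 ha hb hs ht hst, ?_⟩
    have : p j₀ = s • p j₀ + t • p j₀ := by rw [← add_smul, hst, one_smul]
    show (r j₀)⁻¹ • (s • a + t • b - p j₀) = _
    nth_rewrite 1 [this]
    module
  have hCdim : Module.finrank ℝ (vectorSpan ℝ C) ≤ k := by
    refine le_trans (Submodule.finrank_mono ?_) (hA j₀).2.2.2
    rw [vectorSpan_def, Submodule.span_le]
    rintro _ ⟨_, ⟨a, ha, rfl⟩, _, ⟨b, hb, rfl⟩, rfl⟩
    have h1 : a -ᵥ b ∈ vectorSpan ℝ (A j₀) := vsub_mem_vectorSpan ℝ ha hb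
    have h2 : (r j₀)⁻¹ • (a - p j₀) - (r j₀)⁻¹ • (b - p j₀) = (r j₀)⁻¹ • (a -ᵥ b) := by
      rw [vsub_eq_sub]
      module
    show (r j₀)⁻¹ • (a - p j₀) - (r j₀)⁻¹ • (b - p j₀) ∈ vectorSpan ℝ (A j₀)
    rw [h2]
    exact Submodule.smul_mem _ _ h1
  refine ⟨C, hCconv, ?_, hCdim, ?_, ?_⟩
  · intro a ha
    exact mem_closedBall_zero_iff.2 (hAh1 j₀ (hGJ _ hj₀) a ha)
  · refine ⟨_, ⟨p j₀, hp j₀, rfl⟩, _, ⟨q j₀, hq j₀, rfl⟩, ?_⟩
    have h1 : (r j₀)⁻¹ • (p j₀ - p j₀) - (r j₀)⁻¹ • (q j₀ - p j₀) = (r j₀)⁻¹ • (p j₀ - q j₀) := by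
      module
    show ‖(r j₀)⁻¹ • (p j₀ - p j₀) - (r j₀)⁻¹ • (q j₀ - p j₀)‖ = 1
    rw [h1, norm_smul, norm_inv, Real.norm_of_nonneg (hr0 j₀)]
    exact inv_mul_cancel₀ (hGr _ hj₀).ne'
  · intro x hx
    obtain ⟨y, hy, e, he, hye⟩ := hKA hx
    obtain ⟨a, ha, hay⟩ := (Set.mem_fintype_sum A y).1 hy
    rw [mem_closedBall_zero_iff] at he
    -- the points of `C` near the normalized `a j`
    have h1 : ∀ j ∈ G, ∀ a ∈ A j, ∃ c ∈ C, ‖(a - p j) - r j • c‖ ≤ 2 * (ε / 5) * r j := by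
      intro j hj a ha
      obtain ⟨c, hc, h2⟩ := hclose (Ah j) C (hAh1 j (hGJ j hj)) ((hGl j hj).trans (hGl _ hj₀).symm) _
        ⟨a, ha, rfl⟩
      refine ⟨c, hc, ?_⟩
      have hrj := hGr j hj
      have h3 : (a - p j) - r j • c = r j • ((r j)⁻¹ • (a - p j) - c) := by
        rw [smul_sub, smul_smul, mul_inv_cancel₀ hrj.ne', one_smul]
      rw [h3, norm_smul, Real.norm_of_nonneg hrj.le, mul_comm]
      exact mul_le_mul_of_nonneg_right h2 hrj.le
    have h2 : ∀ j ∈ G, ∀ c ∈ C, ∃ a ∈ A j, ‖(a - p j) - r j • c‖ ≤ 2 * (ε / 5) * r j := by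
      intro j hj c hc
      obtain ⟨_, ⟨a, ha, rfl⟩, h2⟩ := hclose C (Ah j) (hAh1 _ (hGJ _ hj₀))
        ((hGl _ hj₀).trans (hGl j hj).symm) c hc
      refine ⟨a, ha, ?_⟩
      have hrj := hGr j hj
      have h3 : (a - p j) - r j • c = r j • ((r j)⁻¹ • (a - p j) - c) := by
        rw [smul_sub, smul_smul, mul_inv_cancel₀ hrj.ne', one_smul]
      rw [h3, norm_smul, Real.norm_of_nonneg hrj.le, mul_comm, norm_sub_rev]
      exact mul_le_mul_of_nonneg_right h2 hrj.le
    have hc0 : ∃ c : Fin m → Eu n, ∀ j ∈ G, c j ∈ C ∧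
        ‖(a j - p j) - r j • c j‖ ≤ 2 * (ε / 5) * r j := by
      choose! c hc using fun j (hj : j ∈ G) => h1 j hj (a j) (ha j)
      exact ⟨c, hc⟩
    obtain ⟨c, hc⟩ := hc0
    refine ⟨∑ j ∈ G, (r j / ρ) • c j, ?_, ?_⟩
    · refine hCconv.sum_mem (fun j hj => div_nonneg (hr0 j) hρ0.le) ?_ (fun j hj => (hc j hj).1)
      rw [← Finset.sum_div, ← hρdef, div_self hρ0.ne']
    · intro u hu huN b hb
      have hb0 : ∃ b' : Fin m → Eu n, ∀ j ∈ G, b' j ∈ A j ∧
          ‖(b' j - p j) - r j • b‖ ≤ 2 * (ε / 5) * r j := by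
        choose! b' hb' using fun j (hj : j ∈ G) => h2 j hj b hb
        exact ⟨b', hb'⟩
      obtain ⟨b', hb'⟩ := hb0
      set g : Fin m → Eu n := fun j => if j ∈ G then b' j else a j with hg
      have hgA : ∀ j, g j ∈ A j := by
        intro j
        by_cases hj : j ∈ G
        · simp only [hg, hj, if_true]
          exact (hb' j hj).1
        · simp only [hg, hj, if_false]
          exact ha j
      obtain ⟨x', hx', e', he', hxe'⟩ := hAK ((Set.mem_fintype_sum A _).2 ⟨g, hgA, rfl⟩)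
      rw [mem_closedBall_zero_iff] at he'
      have h3 : ⟪u, x'⟫ ≤ ⟪u, x⟫ := huN x' hx'
      have hux : ⟪u, x⟫ ≤ ⟪u, y⟫ + η := by
        rw [← hye]
        simp only [inner_add_right]
        have := real_inner_le_norm u e
        rw [hu, one_mul] at this
        linarith
      have hux' : ⟪u, ∑ j, g j⟫ ≤ ⟪u, x'⟫ + η := by
        have : ∑ j, g j = x' + e' := hxe'.symm
        rw [this, inner_add_right]
        have := real_inner_le_norm u e'
        rw [hu, one_mul] at this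
        linarith
      have hdiff : ∑ j, g j - y = ∑ j ∈ G, (b' j - a j) := by
        rw [← hay, ← Finset.sum_sub_distrib]
        rw [← Finset.sum_subset (Finset.subset_univ G) (f := fun j => g j - a j)]
        · refine Finset.sum_congr rfl fun j hj => ?_
          simp only [hg, hj, if_true]
        · intro j _ hj
          simp only [hg, hj, if_false, sub_self]
      have h4 : ∑ j ∈ G, ⟪u, b' j - a j⟫ ≤ 2 * η := by
        rw [← inner_sum, ← hdiff, inner_sub_right]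
        linarith
      have h5 : ∀ j ∈ G, r j * ⟪u, b⟫ - r j * ⟪u, c j⟫ - 4 * (ε / 5) * r j ≤ ⟪u, b' j - a j⟫ := by
        intro j hj
        have e1 : b' j - a j = (r j • b - r j • c j) +
            (((b' j - p j) - r j • b) - ((a j - p j) - r j • c j)) := by abel
        rw [e1, inner_add_right, inner_sub_right, inner_smul_right, inner_smul_right,
          inner_sub_right]
        have h6 : -‖(b' j - p j) - r j • b‖ ≤ ⟪u, (b' j - p j) - r j • b⟫ := by
          have := abs_le.1 (abs_real_inner_le_norm u ((b' j - p j) - r j • b))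
          rw [hu, one_mul] at this
          exact this.1
        have h7 : ⟪u, (a j - p j) - r j • c j⟫ ≤ ‖(a j - p j) - r j • c j‖ := by
          have := real_inner_le_norm u ((a j - p j) - r j • c j)
          rwa [hu, one_mul] at this
        have h8 := (hb' j hj).2
        have h9 := (hc j hj).2
        linarith
      have h6 := (Finset.sum_le_sum h5).trans h4
      rw [Finset.sum_sub_distrib, Finset.sum_sub_distrib, ← Finset.sum_mul, ← Finset.mul_sum,
        ← hρdef] at h6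
      have h7 : ⟪u, ∑ j ∈ G, (r j / ρ) • c j⟫ = (∑ j ∈ G, r j * ⟪u, c j⟫) / ρ := by
        rw [inner_sum, Finset.sum_div]
        refine Finset.sum_congr rfl fun j _ => ?_
        rw [inner_smul_right]
        ring
      have h8 : 2 * η ≤ ε / 5 * ρ := by
        calc 2 * η ≤ 2 * (ε / 5 * (D / (4 * N))) := by linarith
          _ = ε / 5 * (D / (2 * N)) := by ring
          _ ≤ ε / 5 * ρ := by gcongr
      rw [h7]
      have h9 : ρ * ⟪u, b⟫ ≤ ∑ j ∈ G, r j * ⟪u, c j⟫ + ε * ρ := by linarith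
      have h10 : (∑ j ∈ G, r j * ⟪u, c j⟫) / ρ + ε = (∑ j ∈ G, r j * ⟪u, c j⟫ + ε * ρ) / ρ := by
        field_simp
      rw [h10, le_div_iff₀ hρ0]
      linarith

/-- A normally subordinate set of dimension between `1` and `k`. -/
theorem exists_sub {k : ℕ} {K : Set (Eu n)} (hK : IsSumLimit k K) {P Q : Eu n} (hP : P ∈ K)
    (hQ : Q ∈ K) (hPQ : P ≠ Q) :
    ∃ A : Set (Eu n), Convex ℝ A ∧ IsCompact A ∧ A.Nonempty ∧
      Module.finrank ℝ (vectorSpan ℝ A) ≤ k ∧ 1 ≤ Module.finrank ℝ (vectorSpan ℝ A) ∧ Sub A K := by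
  classical
  choose C hC1 hC2 hC3 hC4 hC5 using fun i : ℕ => approx hK hP hQ hPQ (1 / (i + 1 : ℝ))
    (by positivity)
  set 𝒰 := Filter.hyperfilter ℕ with h𝒰
  have hlim : ∀ f : ℕ → Eu n, (∀ i, f i ∈ C i) → ∃ x, Tendsto f 𝒰 (𝓝 x) := by
    intro f hf
    obtain ⟨x, hx, h1⟩ := (isCompact_closedBall (0 : Eu n) 1).ultrafilter_le_nhds (𝒰.map f) (by
      rw [Ultrafilter.coe_map, le_principal_iff]
      exact Filter.mem_map.2 (Filter.univ_mem' fun i => hC2 i (hf i)))
    exact ⟨x, h1⟩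
  set A0 : Set (Eu n) := {x | ∃ f : ℕ → Eu n, (∀ i, f i ∈ C i) ∧ Tendsto f 𝒰 (𝓝 x)} with hA0
  have hA0b : A0 ⊆ Metric.closedBall 0 1 := by
    rintro x ⟨f, hf, hfx⟩
    exact Metric.isClosed_closedBall.mem_of_tendsto hfx (Filter.univ_mem' fun i => hC2 i (hf i))
  have hA0c : Convex ℝ A0 := by
    rintro x ⟨f, hf, hfx⟩ y ⟨g, hg, hgy⟩ s t hs ht hst
    exact ⟨fun i => s • f i + t • g i, fun i => hC1 i (hf i) (hg i) hs ht hst,
      (hfx.const_smul s).add (hgy.const_smul t)⟩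
  -- two points of distance one
  choose c hc c' hc' hcc using hC4
  obtain ⟨z, hz⟩ := hlim c hc
  obtain ⟨z', hz'⟩ := hlim c' hc'
  have hzA : z ∈ A0 := ⟨c, hc, hz⟩
  have hzA' : z' ∈ A0 := ⟨c', hc', hz'⟩
  have hzz : ‖z - z'‖ = 1 := by
    refine tendsto_nhds_unique ((hz.sub hz').norm) ?_
    simp_rw [hcc]
    exact tendsto_const_nhds
  refine ⟨closure A0, hA0c.closure, ?_, ⟨z, subset_closure hzA⟩, ?_, ?_, ?_⟩
  · exact (isCompact_closedBall (0 : Eu n) 1).of_isClosed_subset isClosed_closure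
      (closure_minimal hA0b Metric.isClosed_closedBall)
  · -- the dimension
    have h1 : vectorSpan ℝ (closure A0) ≤ vectorSpan ℝ A0 := by
      rw [← direction_affineSpan, ← direction_affineSpan]
      apply AffineSubspace.direction_le
      rw [affineSpan_le]
      exact closure_minimal (subset_affineSpan ℝ A0)
        (AffineSubspace.closed_of_finiteDimensional _)
    refine (Submodule.finrank_mono h1).trans ?_
    by_contra hcon
    push Not at hcon
    obtain ⟨b, hb1, hb2, hb3⟩ := exists_linearIndependent ℝ (A0 -ᵥ A0)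
    rw [← vectorSpan_def] at hb2
    have hbf : b.Finite := hb3.setFinite
    have : Fintype b := hbf.fintype
    have hcard : Fintype.card b = Module.finrank ℝ (vectorSpan ℝ A0) := by
      rw [← hb2]
      have := finrank_span_set_eq_card hb3
      rw [this, Set.toFinset_card]
    have hfg : ∀ v : b, ∃ f g : ℕ → Eu n, (∀ i, f i ∈ C i) ∧ (∀ i, g i ∈ C i) ∧
        Tendsto (fun i => f i - g i) 𝒰 (𝓝 (v : Eu n)) := by
      intro v
      obtain ⟨x, ⟨f, hf, hfx⟩, y, ⟨g, hg, hgy⟩, hv⟩ := hb1 v.2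
      refine ⟨f, g, hf, hg, ?_⟩
      have : (v : Eu n) = x - y := hv.symm
      rw [this]
      exact hfx.sub hgy
    choose f g hf hg hv using hfg
    have hev : ∀ᶠ w in 𝓝 (fun v : b => (v : Eu n)), LinearIndependent ℝ w := hb3.eventually
    have ht : Tendsto (fun i => fun v : b => f v i - g v i) 𝒰 (𝓝 (fun v : b => (v : Eu n))) :=
      tendsto_pi_nhds.2 hv
    obtain ⟨i, hi⟩ := (ht.eventually hev).exists
    have h2 : Fintype.card b ≤ Module.finrank ℝ (vectorSpan ℝ (C i)) := by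
      rw [← finrank_span_eq_card hi]
      apply Submodule.finrank_mono
      rw [Submodule.span_le]
      rintro _ ⟨v, rfl⟩
      exact vsub_mem_vectorSpan ℝ (hf v i) (hg v i)
    have h3 := hC3 i
    omega
  · rw [Nat.one_le_iff_ne_zero]
    intro h0
    have h1 : vectorSpan ℝ (closure A0) = ⊥ := Submodule.finrank_eq_zero.1 h0
    have h2 : z -ᵥ z' ∈ vectorSpan ℝ (closure A0) :=
      vsub_mem_vectorSpan ℝ (subset_closure hzA) (subset_closure hzA')
    rw [h1, Submodule.mem_bot, vsub_eq_sub] at h2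
    rw [h2, norm_zero] at hzz
    exact zero_ne_one hzz
  · intro x hx
    choose a ha haN using fun i => hC5 i x hx
    obtain ⟨y, hy⟩ := hlim a ha
    refine ⟨y, subset_closure ⟨a, ha, hy⟩, fun u hu => ?_⟩
    rcases eq_or_ne u 0 with rfl | hu0
    · intro w _
      rw [inner_zero_left, inner_zero_left]
    · have hun : 0 < ‖u‖ := norm_pos_iff.2 hu0
      have hu1 : ‖‖u‖⁻¹ • u‖ = 1 := by
        rw [norm_smul, norm_inv, norm_norm, inv_mul_cancel₀ hun.ne']
      have huK : NormalAt K x (‖u‖⁻¹ • u) := by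
        intro w hw
        rw [inner_smul_left, inner_smul_left]
        exact mul_le_mul_of_nonneg_left (hu w hw) (by simp)
      have h1 : ∀ w ∈ A0, ⟪u, w⟫ ≤ ⟪u, y⟫ := by
        rintro w ⟨b, hb, hbw⟩
        have h2 : ⟪‖u‖⁻¹ • u, w⟫ ≤ ⟪‖u‖⁻¹ • u, y⟫ + 0 := by
          refine le_of_tendsto_of_tendsto' (tendsto_const_nhds.inner hbw)
            ((tendsto_const_nhds.inner hy).add ?_) fun i => haN i _ hu1 huK (b i) (hb i)
          exact (tendsto_one_div_add_atTop_nhds_zero_nat (𝕜 := ℝ)).mono_left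
            Nat.hyperfilter_le_atTop
        rw [add_zero, inner_smul_left, inner_smul_left] at h2
        have h3 : (0:ℝ) < (starRingEnd ℝ) ‖u‖⁻¹ := by
          simpa using hun
        exact le_of_mul_le_mul_left h2 h3
      intro w hw
      exact closure_minimal (t := {w : Eu n | ⟪u, w⟫ ≤ ⟪u, y⟫}) h1
        (isClosed_le (continuous_const.inner continuous_id) continuous_const) hw

/-- Images of limits of sums. -/
theorem IsSumLimit.image {k m : ℕ} {K : Set (Eu n)} (hK : IsSumLimit k K) (π : Eu n →L[ℝ] Eu m) :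
    IsSumLimit k (π '' K) := by
  intro ε hε
  obtain ⟨q, A, hA, h1, h2⟩ := hK (ε / (‖π‖ + 1)) (by positivity)
  have hball : ∀ e ∈ Metric.closedBall (0 : Eu n) (ε / (‖π‖ + 1)),
      π e ∈ Metric.closedBall (0 : Eu m) ε := by
    intro e he
    rw [mem_closedBall_zero_iff] at he ⊢
    calc ‖π e‖ ≤ ‖π‖ * ‖e‖ := π.le_opNorm e
      _ ≤ (‖π‖ + 1) * (ε / (‖π‖ + 1)) := by
          gcongr
          linarith
      _ = ε := by field_simp
  refine ⟨q, fun i => π '' A i, fun i => ⟨(hA i).1.linear_image π.toLinearMap,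
    (hA i).2.1.image π.continuous, (hA i).2.2.1.image π, ?_⟩, ?_, ?_⟩
  · have h3 : vectorSpan ℝ (π '' A i) = (vectorSpan ℝ (A i)).map π.toLinearMap := by
      have := (π.toLinearMap.toAffineMap).map_vectorSpan (s := A i)
      exact this.symm
    rw [h3]
    exact (Submodule.finrank_map_le _ _).trans (hA i).2.2.2
  · rintro _ ⟨x, hx, rfl⟩
    obtain ⟨y, hy, e, he, rfl⟩ := h1 hx
    obtain ⟨a, ha, rfl⟩ := (Set.mem_fintype_sum A y).1 hy
    refine ⟨∑ i, π (a i), (Set.mem_fintype_sum _ _).2 ⟨fun i => π (a i), fun i => ⟨a i, ha i, rfl⟩, rfl⟩,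
      π e, hball e he, ?_⟩
    simp [map_sum]
  · intro y hy
    obtain ⟨a, ha, rfl⟩ := (Set.mem_fintype_sum _ y).1 hy
    choose b hb hba using ha
    obtain ⟨x, hx, e, he, hxe⟩ := h2 ((Set.mem_fintype_sum A _).2 ⟨b, hb, rfl⟩)
    refine ⟨π x, ⟨x, hx, rfl⟩, π e, hball e he, ?_⟩
    have : ∑ i, a i = π (∑ i, b i) := by
      rw [map_sum]
      exact Finset.sum_congr rfl fun i _ => (hba i).symm
    rw [this, ← hxe]
    simp

/-- **The bound for limits of sums.** -/
theorem main (k : ℕ) (hyp : ∀ d ≤ k, ∀ L : Set (Eu d), Bdy L → Cov L (2 ^ d)) :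
    ∀ (n : ℕ) (K : Set (Eu n)), Bdy K → IsSumLimit k K → Cov K (2 ^ n) := by
  intro n
  induction n using Nat.strong_induction_on with
  | _ n ih =>
    intro K hK hKs
    rcases Nat.eq_zero_or_pos n with rfl | hn
    · exact body_le_two (by norm_num) hK
    · obtain ⟨P, hP⟩ := hK.2.2
      obtain ⟨Q, hQ, hPQ⟩ : ∃ Q ∈ K, P ≠ Q := by
        set e : Eu n := EuclideanSpace.single ⟨0, hn⟩ 1 with he
        obtain ⟨δ, hδ, h1⟩ := Co.of_interior hP e
        refine ⟨P + δ • e, interior_subset h1, fun h => ?_⟩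
        have h2 : δ • e = 0 := by
          have := congrArg (fun x => x - P) h
          simpa using this.symm
        have h3 := congrArg (fun x : Eu n => x ⟨0, hn⟩) h2
        simp [he, hδ.ne'] at h3
      obtain ⟨A, hA1, hA2, ⟨a₀, ha₀⟩, hA3, hA4, hA5⟩ := exists_sub hKs (interior_subset hP) hQ hPQ
      set q := Module.finrank ℝ (vectorSpan ℝ A) with hq
      obtain ⟨ι, hι⟩ := coords (vectorSpan ℝ A) (k := q) rfl
      have hqn : q ≤ n := by
        have := Submodule.finrank_le (vectorSpan ℝ A)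
        rwa [finrank_euclideanSpace, Fintype.card_fin] at this
      obtain ⟨m, hm⟩ : ∃ m, q + m = n := ⟨n - q, by omega⟩
      obtain ⟨p, hp, hker⟩ := quot (vectorSpan ℝ A) (m := m) hm
      have hL : Bdy (Lset ι A a₀) :=
        ⟨Lset_convex hA1, Lset_compact (fun x hx => (hι x).1 hx) ha₀ hA2, Lset_int hι ha₀ hA1⟩
      have hQb : Bdy (p '' K) := by
        refine ⟨hK.1.linear_image p.toLinearMap, hK.2.1.image p.continuous, ?_⟩
        have h4 : p '' (interior K) ⊆ interior (p '' K) :=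
          interior_maximal (Set.image_mono interior_subset)
            (ContinuousLinearMap.isOpenMap _ hp _ isOpen_interior)
        exact (hK.2.2.image p).mono h4
      have h5 := bound hι ha₀ hA2 hK.1 hK.2.1 hK.2.2 hA5 p (Function.surjInv hp)
        (Function.surjInv_eq hp) (fun y hy => (hker y).1 hy) _ _ (hyp q hA3 _ hL)
        (ih m (by omega) _ hQb (hKs.image p))
      rwa [← pow_add, hm] at h5

end Pool.Agent.X163.Lim
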